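import Pool.Agent.Run7.h261.MT.Defs
import Pool.Agent.N184.HK.W3

/-!
# Slopes of tensor constructions at the good places
-/

set_option autoImplicit false

namespace Pool.Agent.Run7.h261.MT

open Module Module.End NumberField IsDedekindDomain Polynomial
open Pool.Agent.W401.Cheb Pool.Agent.N184.HK
open scoped Classical

section arrow

variable {K A B : Type} [Field K] [IsAlgClosed K] [AddCommGroup A] [Module K A]
  [FiniteDimensional K A] [AddCommGroup B] [Module K B] [FiniteDimensional K B]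

/-- The action on linear maps. -/
noncomputable abbrev arr (φ : A ≃ₗ[K] A) (ψ : B ≃ₗ[K] B) : Module.End K (A →ₗ[K] B) :=
  en (LinearEquiv.arrowCongr φ ψ)

omit [IsAlgClosed K] [FiniteDimensional K A] [FiniteDimensional K B] in
lemma arr_apply (φ : A ≃ₗ[K] A) (ψ : B ≃ₗ[K] B) (f : A →ₗ[K] B) (x : A) :
    arr φ ψ f (φ x) = ψ (f x) := by
  change ψ (f (φ.symm (φ x))) = _
  rw [LinearEquiv.symm_apply_apply]

omit [IsAlgClosed K] [FiniteDimensional K A] [FiniteDimensional K B] in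
lemma arr_gen_aux {φ : A ≃ₗ[K] A} {ψ : B ≃ₗ[K] B} {t e : K} (n : ℕ) :
    ∀ (k m : ℕ) (f : A →ₗ[K] B) (x : A),
    k + m ≤ n → ((arr φ ψ - t • 1) ^ k) f = 0 → (((en φ) - e • 1) ^ m) x = 0 →
    (((en ψ) - (t * e) • 1) ^ n) (f x) = 0 := by
  induction n with
  | zero =>
    intro k m B x hkm hB hx
    have hk : k = 0 := by omega
    subst hk
    change B = 0 at hB
    rw [hB]; simp
  | succ n ih =>
    intro k m B x hkm hB hx
    rcases k with _ | k
    · change B = 0 at hB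
      rw [hB]; simp
    rcases m with _ | m
    · change x = 0 at hx
      rw [hx]; simp
    rw [_root_.pow_succ, Module.End.mul_apply]
    have h1 : ((en ψ) - (t * e) • 1) (B x) =
        ((arr φ ψ - t • 1) B) (φ x) + t • B (((en φ) - e • 1) x) := by
      have h2 : ((arr φ ψ - t • 1) B) (φ x) = ψ (B x) - t • B (φ x) := by
        have := arr_apply φ ψ B x
        change (arr φ ψ B - t • B) (φ x) = _
        rw [LinearMap.sub_apply, this]; rfl
      have h3 : ((en φ) - e • 1) x = φ x - e • x := rfl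
      have h4 : ((en ψ) - (t * e) • 1) (B x) = ψ (B x) - (t * e) • B x := rfl
      rw [h2, h3, h4, map_sub, map_smul, smul_sub, smul_smul]
      abel
    rw [h1, map_add, map_smul]
    have h5 := ih k (m + 1) ((arr φ ψ - t • 1) B) (φ x) (by omega)
      (by rw [← Module.End.mul_apply, ← _root_.pow_succ]; exact hB)
      (by
        have hc : Commute (((en φ) - e • 1) ^ (m + 1)) (en φ) := by
          refine Commute.pow_left ?_ _
          exact (Commute.refl (en φ)).sub_left ((Commute.one_left _).smul_left e)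
        have := congrArg (fun f : Module.End K A => f x) hc.eq
        change (((en φ) - e • 1) ^ (m + 1)) (φ x) = φ ((((en φ) - e • 1) ^ (m + 1)) x) at this
        rw [this, hx, map_zero])
    have h6 := ih (k + 1) m B (((en φ) - e • 1) x) (by omega) hB
      (by rw [← Module.End.mul_apply, ← _root_.pow_succ]; exact hx)
    rw [h5, h6, smul_zero, add_zero]

omit [IsAlgClosed K] [FiniteDimensional K A] [FiniteDimensional K B] in
lemma arr_gen {φ : A ≃ₗ[K] A} {ψ : B ≃ₗ[K] B} {t e : K} {f : A →ₗ[K] B}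
    (hf : f ∈ (arr φ ψ).maxGenEigenspace t) {x : A} (hx : x ∈ (en φ).maxGenEigenspace e) :
    f x ∈ (en ψ).maxGenEigenspace (t * e) := by
  rw [Module.End.mem_maxGenEigenspace] at hf hx ⊢
  obtain ⟨k, hk⟩ := hf
  obtain ⟨m, hm⟩ := hx
  exact ⟨k + m, arr_gen_aux (k + m) k m f x le_rfl hk hm⟩

/-- eigenvalues of the action on linear maps -/
lemma arr_root {φ : A ≃ₗ[K] A} {ψ : B ≃ₗ[K] B} {t : K} {f : A →ₗ[K] B} (hf0 : f ≠ 0)
    (hf : f ∈ (arr φ ψ).maxGenEigenspace t) :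
    ∃ e, e ∈ (en φ).charpoly.roots ∧ t * e ∈ (en ψ).charpoly.roots := by
  have hex : ∃ e, ∃ x ∈ (en φ).maxGenEigenspace e, f x ≠ 0 := by
    by_contra hcon
    push Not at hcon
    exact hf0 (ext_gen (en φ) fun e x hx => by rw [hcon e x hx, LinearMap.zero_apply])
  obtain ⟨e, x, hx, hfx⟩ := hex
  have h1 := arr_gen hf hx
  refine ⟨e, ne_bot_iff.1 fun h => hfx ?_, ne_bot_iff.1 fun h => hfx ?_⟩
  · rw [h, Submodule.mem_bot] at hx
    rw [hx, map_zero]
  · rw [h, Submodule.mem_bot] at h1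
    exact h1

lemma arr_comm_fop [CharZero K] {φ : A ≃ₗ[K] A} {ψ : B ≃ₗ[K] B} (W : Wt K)
    (hA : ∀ e ∈ (en φ).charpoly.roots, W.U e) (hB : ∀ e ∈ (en ψ).charpoly.roots, W.U e)
    {t : K} {f : A →ₗ[K] B} (hf : f ∈ (arr φ ψ).maxGenEigenspace t) :
    fop (en ψ) W.k ∘ₗ f - f ∘ₗ fop (en φ) W.k = W.k t • f := by
  refine ext_gen (en φ) fun e x hx => ?_
  have h1 := arr_gen hf hx
  rw [LinearMap.sub_apply, LinearMap.comp_apply, LinearMap.comp_apply, fop_apply _ h1,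
    fop_apply _ hx, LinearMap.smul_apply, map_smul, ← sub_smul]
  by_cases hB0 : f x = 0
  · rw [hB0, smul_zero, smul_zero]
  have hx0 : x ≠ 0 := fun h => hB0 (by rw [h, map_zero])
  have he : e ∈ (en φ).charpoly.roots := ne_bot_iff.1 fun h => hx0 (by
    rw [h, Submodule.mem_bot] at hx; exact hx)
  have hte : t * e ∈ (en ψ).charpoly.roots := ne_bot_iff.1 fun h => hB0 (by
    rw [h, Submodule.mem_bot] at h1; exact h1)
  have hUt : W.U t := by
    have := W.mul _ _ (hB _ hte) (W.inv _ (hA _ he))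
    rwa [mul_assoc, mul_inv_cancel₀ (root_ne he), mul_one] at this
  congr 1
  rw [Wt.k, Wt.k, Wt.k, W.w_mul _ _ hUt (hA _ he), Rat.cast_add]
  ring

omit [IsAlgClosed K] [FiniteDimensional K A] [FiniteDimensional K B] in
lemma ppc_apply (R : Module.End K A) (S : Module.End K B) (f : A →ₗ[K] B) :
    ppc R S f = S ∘ₗ f - f ∘ₗ R := rfl

lemma arr_fop [CharZero K] {φ : A ≃ₗ[K] A} {ψ : B ≃ₗ[K] B} (W : Wt K)
    (hA : ∀ e ∈ (en φ).charpoly.roots, W.U e) (hB : ∀ e ∈ (en ψ).charpoly.roots, W.U e) :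
    fop (arr φ ψ) W.k = ppc (fop (en φ) W.k) (fop (en ψ) W.k) := by
  refine ext_gen (arr φ ψ) fun t f hf => ?_
  rw [fop_apply _ hf, ppc_apply, arr_comm_fop W hA hB hf]

omit [IsAlgClosed K] [FiniteDimensional K A] [FiniteDimensional K B] in
lemma post_pow (S : Module.End K B) (n : ℕ) (f : A →ₗ[K] B) :
    ((LinearMap.compRight K S : Module.End K (A →ₗ[K] B)) ^ n) f = (S ^ n) ∘ₗ f := by
  induction n generalizing f with
  | zero => rfl
  | succ n ih =>
    rw [_root_.pow_succ, Module.End.mul_apply, ih]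
    rfl

omit [IsAlgClosed K] [FiniteDimensional K A] [FiniteDimensional K B] in
lemma pre_pow (R : Module.End K A) (n : ℕ) (f : A →ₗ[K] B) :
    ((LinearMap.lcomp K B R : Module.End K (A →ₗ[K] B)) ^ n) f = f ∘ₗ (R ^ n) := by
  induction n generalizing f with
  | zero => rfl
  | succ n ih =>
    rw [_root_.pow_succ, Module.End.mul_apply, ih, _root_.pow_succ']
    rfl

omit [IsAlgClosed K] [FiniteDimensional K A] [FiniteDimensional K B] in
lemma ppc_nil {R : Module.End K A} {S : Module.End K B} (hR : IsNilpotent R)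
    (hS : IsNilpotent S) : IsNilpotent (ppc R S) := by
  obtain ⟨a, ha⟩ := hR
  obtain ⟨b, hb⟩ := hS
  refine Commute.isNilpotent_sub ?_ ⟨b, ?_⟩ ⟨a, ?_⟩
  · ext f x
    rfl
  · ext f x
    rw [post_pow, hb]
    rfl
  · ext f x
    rw [pre_pow, ha]
    change f ((0 : Module.End K A) x) = 0
    rw [LinearMap.zero_apply, map_zero]

end arrow

section weil

/-- Algebraic numbers of absolute value `p ^ (w / 2)`, units outside of `p`, of degree at most `B`. -/
def WeilAt (p : ℕ) (w : ℤ) (B : ℕ) (y : QQ) : Prop :=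
  y ≠ 0 ∧ (∀ τ : QQ →+* ℂ, ‖τ y‖ ^ 2 = (p : ℝ) ^ w) ∧
    (∃ k : ℕ, IsIntegral ℤ ((p : QQ) ^ k * y)) ∧ (∃ k : ℕ, IsIntegral ℤ ((p : QQ) ^ k * y⁻¹)) ∧
    ∃ E : IntermediateField ℚ QQ, FiniteDimensional ℚ E ∧ finrank ℚ E ≤ B ∧ y ∈ E

lemma WeilAt.div {p : ℕ} (hp : 0 < p) {w w' : ℤ} {B B' : ℕ} {y y' : QQ} (h : WeilAt p w B y)
    (h' : WeilAt p w' B' y') : WeilAt p (w' - w) (B * B') (y' / y) := by
  obtain ⟨h0, h1, ⟨k, h2⟩, ⟨l, h3⟩, E, hE1, hE2, hE3⟩ := h
  obtain ⟨h0', h1', ⟨k', h2'⟩, ⟨l', h3'⟩, E', hE1', hE2', hE3'⟩ := h'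
  have hpR : (p : ℝ) ≠ 0 := by exact_mod_cast hp.ne'
  refine ⟨div_ne_zero h0' h0, fun τ => ?_, ⟨l + k', ?_⟩, ⟨k + l', ?_⟩, E ⊔ E', inferInstance, ?_,
    ?_⟩
  · rw [map_div₀, norm_div, div_pow, h1, h1', zpow_sub₀ hpR]
  · have := h3.mul h2'
    rw [show (p : QQ) ^ (l + k') * (y' / y) = (p : QQ) ^ l * y⁻¹ * ((p : QQ) ^ k' * y') by
      rw [pow_add]; field_simp]
    exact this
  · have := h2.mul h3'
    rw [show (p : QQ) ^ (k + l') * (y' / y)⁻¹ = (p : QQ) ^ k * y * ((p : QQ) ^ l' * y'⁻¹) by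
      rw [pow_add, inv_div]; field_simp]
    exact this
  · exact (IntermediateField.finrank_sup_le _ _).trans (Nat.mul_le_mul hE2 hE2')
  · exact div_mem (SetLike.le_def.mp le_sup_right hE3') (SetLike.le_def.mp le_sup_left hE3)

lemma WeilAt.pow_p {p : ℕ} (hp : 0 < p) (m : ℤ) : WeilAt p (2 * m) 1 ((p : QQ) ^ m) := by
  have hpQ : (p : QQ) ≠ 0 := by exact_mod_cast hp.ne'
  have hint : ∀ m : ℤ, ∃ k : ℕ, IsIntegral ℤ ((p : QQ) ^ k * (p : QQ) ^ m) := by
    intro m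
    refine ⟨m.natAbs, ?_⟩
    have h1 : ∃ n : ℕ, (m.natAbs : ℤ) + m = n := by
      obtain ⟨n, hn⟩ := Int.eq_ofNat_of_zero_le (a := (m.natAbs : ℤ) + m) (by omega)
      exact ⟨n, hn⟩
    obtain ⟨n, hn⟩ := h1
    rw [← zpow_natCast, ← zpow_add₀ hpQ, hn, zpow_natCast]
    exact (isIntegral_algebraMap (R := ℤ) (x := (p : ℤ))).pow n |> fun h => by
      simpa using h
  refine ⟨zpow_ne_zero _ hpQ, fun τ => ?_, hint m, ?_, ⊥, inferInstance, ?_, ?_⟩
  · rw [map_zpow₀, map_natCast, norm_zpow, Complex.norm_natCast, ← zpow_natCast, ← zpow_mul]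
    congr 1
    push_cast
    ring
  · obtain ⟨k, hk⟩ := hint (-m)
    refine ⟨k, ?_⟩
    rw [zpow_neg] at hk
    exact hk
  · rw [IntermediateField.finrank_bot]
  · exact zpow_mem (natCast_mem _ p) m

lemma val_zpow {p : ℕ} (hp : p.Prime) {C : Type} [Field C] [CharZero C]
    (v : AddValuation C (WithTop ℚ)) (hv : v (p : C) = 1) (m : ℤ) :
    (v ((p : C) ^ m)).untopD 0 = m := by
  have hpC : (p : C) ≠ 0 := by exact_mod_cast hp.ne_zero
  have h6 : ∀ n : ℕ, (v ((p : C) ^ n)).untopD 0 = n := by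
    intro n
    rw [v.map_pow, hv, nsmul_one, ← WithTop.coe_natCast]
    rfl
  rcases Int.eq_nat_or_neg m with ⟨n, rfl | rfl⟩
  · rw [zpow_natCast, h6]
    simp
  · have h7 := val_untop_mul v (x := (p : C) ^ n) (y := (p : C) ^ (-(n : ℤ)))
      (pow_ne_zero _ hpC) (zpow_ne_zero _ hpC)
    rw [zpow_neg, zpow_natCast, mul_inv_cancel₀ (pow_ne_zero _ hpC), h6, v.map_one] at h7
    rw [zpow_neg, zpow_natCast]
    push_cast
    have h8 : (WithTop.untopD 0 (0 : WithTop ℚ)) = 0 := rfl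
    rw [h8] at h7
    linarith

/-- A number of weight `2 m`, with valuations `m` at all places over `p`, is `p ^ m` times a root of
unity. -/
lemma WeilAt.root {p : ℕ} (hp : p.Prime) {m : ℤ} {B : ℕ} {y : QQ} (h : WeilAt p (2 * m) B y)
    {C : Type} [Field C] [CharZero C] [IsAlgClosed C] (v : AddValuation C (WithTop ℚ))
    (hv : v (p : C) = 1) (hy : ∀ ι : QQ →+* C, (v (ι y)).untopD 0 = m) :
    y ^ (2 * B).factorial = ((p : QQ) ^ m) ^ (2 * B).factorial := by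
  obtain ⟨h0, h1, ⟨k, h2⟩, -, E, hE1, hE2, hE3⟩ := h
  have hpQ : (p : QQ) ≠ 0 := by exact_mod_cast hp.ne_zero
  have hpm : (p : QQ) ^ m ≠ 0 := zpow_ne_zero _ hpQ
  have hpR : (p : ℝ) ≠ 0 := by exact_mod_cast hp.ne_zero
  have key : (y / (p : QQ) ^ m) ^ (2 * B).factorial = 1 := by
    refine t_root QQ C p hp v (by rw [hv]; exact zero_lt_one) _ ?_ ?_ ?_ B ?_
    · intro τ
      have h3 : ‖τ (y / (p : QQ) ^ m)‖ ^ 2 = 1 := by
        rw [map_div₀, map_zpow₀, map_natCast, norm_div, norm_zpow, div_pow, h1,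
          Complex.norm_natCast, ← zpow_natCast, ← zpow_mul]
        rw [show (m * ((2 : ℕ) : ℤ)) = 2 * m by push_cast; ring, div_self (zpow_ne_zero _ hpR)]
      exact (pow_eq_one_iff_of_nonneg (norm_nonneg _) two_ne_zero).mp h3
    · refine ⟨k + m.natAbs, ?_⟩
      have h3 : ∃ n : ℕ, (m.natAbs : ℤ) - m = n := by
        obtain ⟨n, hn⟩ := Int.eq_ofNat_of_zero_le (a := (m.natAbs : ℤ) - m) (by omega)
        exact ⟨n, hn⟩
      obtain ⟨n, hn⟩ := h3
      have h4 : (p : QQ) ^ (k + m.natAbs) * (y / (p : QQ) ^ m) = ((p : QQ) ^ k * y) * (p : QQ) ^ n := by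
        rw [← zpow_natCast (p : QQ) n, ← hn, zpow_sub₀ hpQ, pow_add, zpow_natCast]
        field_simp
      rw [h4]
      refine h2.mul ?_
      exact (isIntegral_algebraMap (R := ℤ) (x := (p : ℤ))).pow n |> fun h => by
        simpa using h
    · intro ι
      have hιy : ι y ≠ 0 := (map_ne_zero ι).2 h0
      have hιp : ι ((p : QQ) ^ m) ≠ 0 := (map_ne_zero ι).2 hpm
      have h3 : ι (y / (p : QQ) ^ m) ≠ 0 := (map_ne_zero ι).2 (div_ne_zero h0 hpm)
      have h5 : (v (ι ((p : QQ) ^ m))).untopD 0 = m := by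
        rw [map_zpow₀, map_natCast]
        exact val_zpow hp v hv m
      have h6 := val_untop_mul v (x := ι (y / (p : QQ) ^ m)) (y := ι ((p : QQ) ^ m)) h3 hιp
      rw [← map_mul, div_mul_cancel₀ _ hpm, hy, h5] at h6
      rw [← val_untop v h3]
      have h7 : (v (ι (y / (p : QQ) ^ m))).untopD 0 = 0 := by linarith
      rw [h7]
      exact le_rfl
    · have hθ : y / (p : QQ) ^ m ∈ E := div_mem hE3 (zpow_mem (natCast_mem E p) m)
      have e := IntermediateField.minpoly_eq (K := ℚ) (S := E) (⟨_, hθ⟩ : E)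
      have h1 : (minpoly ℚ (y / (p : QQ) ^ m)).natDegree ≤ finrank ℚ E := by
        have e' : minpoly ℚ (y / (p : QQ) ^ m) = _ := e.symm
        rw [e']
        exact minpoly.natDegree_le _
      exact h1.trans hE2
  rw [div_pow, div_eq_one_iff_eq (pow_ne_zero _ hpm)] at key
  exact key

end weil

section good

variable {K : Type} [Field K] [NumberField K] {Ω : Type} [Field Ω] [CharZero Ω] [IsAlgClosed Ω]
  [TopologicalSpace Ω] {X : HKVariety K Ω}

/-- The properties of the tensor constructions which are used. -/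
structure IsGood (A : Rep X) (w : ℤ) (B : ℕ) : Prop where
  mul : ∀ σ τ, A.φ (σ * τ) = (A.φ τ).trans (A.φ σ)
  cont : Cts fun σ => en (A.φ σ)
  equi : ∀ σ T x, A.φ σ (A.ρ T x) = A.ρ (((X.E.F σ).φ 2).toLinearMap ∘ₗ T ∘ₗ
    ((X.E.F σ).φ 2).symm.toLinearMap) (A.φ σ x)
  weil : ∀ v, v ∉ X.bad → (Ideal.absNorm v.asIdeal).Prime → ∀ σ, IsFrob v σ⁻¹ →
    ∀ j : QQ →+* Ω, ∀ e ∈ (en (A.φ σ)).charpoly.roots,
      ∃ y : QQ, j y = e ∧ WeilAt (Ideal.absNorm v.asIdeal) w B y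
  nil : ∀ v (hv : v ∉ X.bad) (hp : (Ideal.absNorm v.asIdeal).Prime), ∀ σ, IsFrob v σ⁻¹ →
    ∀ (j : QQ →+* Ω) (ι : QQ →+* (X.crys v hv hp).C),
      IsNilpotent (fop (en (A.φ σ)) (WI j ι (X.crys v hv hp).val).k - ((w / 2 : ℚ) : Ω) • 1 -
        A.ρ ((X.E.F σ).S2 (WI j ι (X.crys v hv hp).val)))

omit [CharZero Ω] [IsAlgClosed Ω] [TopologicalSpace Ω] in
lemma WeilAt.U {p : ℕ} {w : ℤ} {B : ℕ} {y : QQ} (h : WeilAt p w B y) (j : QQ →+* Ω) {C : Type}
    [Field C] (ι : QQ →+* C) (val : AddValuation C (WithTop ℚ)) : (WI j ι val).U (j y) :=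
  ⟨y, h.1, rfl⟩

end good

end Pool.Agent.Run7.h261.MT
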