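import Pool.Agent.Run7.h261.MT.Good
import Pool.Agent.N184.HK.W4

/-!
# The tensor constructions are good
-/

set_option autoImplicit false

namespace Pool.Agent.Run7.h261.MT

open Module Module.End NumberField IsDedekindDomain Polynomial
open Pool.Agent.W401.Cheb Pool.Agent.N184.HK
open scoped Classical

variable {K : Type} [Field K] [NumberField K] {Ω : Type} [Field Ω] [CharZero Ω] [IsAlgClosed Ω]
  [TopologicalSpace Ω] {X : HKVariety K Ω}

theorem good_coh {i : ℕ} (hi : i ≤ X.d) : IsGood (Rep.coh X i) i (finrank Ω (X.E.X.H i)) where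
  mul σ τ := X.E.mul σ τ i
  cont := X.E.cont i
  equi σ T x := congrArg (fun g => g x) ((X.E.F σ).equi i T)
  weil := by
    intro v hv hp σ hσ j e he
    have he0 : e ≠ 0 := root_ne he
    have he' : e ∈ ((X.poly v i).map (Int.castRingHom QQ)).roots.map j := by
      rw [← roots_frob X hv hσ j hi]
      exact he
    obtain ⟨y, hy, rfl⟩ := Multiset.mem_map.1 he'
    have hP := (X.weilPoly v hv i hi).1
    have hy0 : y ≠ 0 := fun h => he0 (by rw [h, map_zero])
    have hint : ∀ z ∈ ((X.poly v i).map (Int.castRingHom QQ)).roots, IsIntegral ℤ z := by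
      intro z hz
      rw [mem_roots (hP.map _).ne_zero, IsRoot.def, eval_map] at hz
      exact ⟨X.poly v i, hP, hz⟩
    refine ⟨y, rfl, hy0, fun τ => ?_, ⟨0, ?_⟩, ⟨i, ?_⟩, ?_⟩
    · have h1 := (X.weilPoly v hv i hi).2 _ (P_ARITH.root_map hP τ hy)
      rw [h1]
      exact (zpow_natCast _ _).symm
    · rw [pow_zero, one_mul]
      exact hint y hy
    · have h1 := t_rec QQ (Ideal.absNorm v.asIdeal) i hp.pos (X.poly v i) hP
        (X.weilPoly v hv i hi).2 y hy
      rw [← div_eq_mul_inv]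
      exact hint _ h1
    · obtain ⟨E, hE1, hE2, hE3⟩ := P_ARITH.exists_field hP {y} (by
        intro z hz
        rw [Multiset.mem_singleton.1 hz]
        exact hy)
      refine ⟨E, hE1, ?_, by simpa using hE3⟩
      have hdeg : (X.poly v i).natDegree = finrank Ω (X.E.X.H i) := by
        have h6 := LinearMap.charpoly_natDegree (en ((X.E.F σ).φ i))
        have h7 := X.frob v hv σ hσ i hi
        rw [GaloisCohomology.cp, GaloisCohomology.Φ] at h7
        rw [h7, natDegree_map_eq_of_injective (RingHom.injective_int _)] at h6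
        exact h6
      rw [hdeg, Multiset.card_singleton, pow_one] at hE2
      exact hE2
  nil := by
    intro v hv hp σ hσ j ι
    have h := good_nil X hv hp hσ j ι hi
    rw [T_eq] at h
    have h2 : (((i : ℤ) : ℚ) / 2 : ℚ) = (i : ℚ) / 2 := by
      push_cast
      rfl
    rw [h2]
    exact h

section tate

variable (c : Twist X)

omit [CharZero Ω] [IsAlgClosed Ω] in
lemma cont_zpow [IsTopologicalRing Ω] (m : ℤ) : Continuous fun σ => c.pow m σ := by
  have hinv : Continuous fun σ : GK K => ((c.χ σ⁻¹ : Ωˣ) : Ω) := c.cont.comp continuous_inv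
  rcases Int.eq_nat_or_neg m with ⟨n, rfl | rfl⟩
  · have : (fun σ => c.pow (n : ℤ) σ) = fun σ => ((c.χ σ : Ωˣ) : Ω) ^ n := by
      ext σ
      rw [Twist.pow, zpow_natCast]
    rw [this]
    exact c.cont.pow n
  · have : (fun σ => c.pow (-(n : ℤ)) σ) = fun σ => ((c.χ σ⁻¹ : Ωˣ) : Ω) ^ n := by
      ext σ
      rw [Twist.pow, map_inv, zpow_neg, zpow_natCast, ← inv_pow, Units.val_inv_eq_inv_val]
    rw [this]
    exact hinv.pow n

omit [CharZero Ω] [IsAlgClosed Ω] in
lemma tate_en (m : ℤ) (σ : GK K) :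
    en ((Rep.tate c m).φ σ) = c.pow m σ • (1 : Module.End Ω Ω) := by
  ext
  rfl

omit [CharZero Ω] [IsAlgClosed Ω] in
lemma tate_gen (m : ℤ) (σ : GK K) (x : Ω) :
    x ∈ (en ((Rep.tate c m).φ σ)).maxGenEigenspace (c.pow m σ) := by
  rw [Module.End.mem_maxGenEigenspace]
  refine ⟨1, ?_⟩
  rw [tate_en, sub_self, pow_one, LinearMap.zero_apply]

omit [CharZero Ω] [IsAlgClosed Ω] in
lemma pow_mul (m : ℤ) (σ τ : GK K) : c.pow m (σ * τ) = c.pow m σ * c.pow m τ := by
  rw [Twist.pow, Twist.pow, Twist.pow, map_mul, Units.val_mul, mul_zpow]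

omit [CharZero Ω] in
theorem good_tate [IsTopologicalRing Ω] (m : ℤ) : IsGood (Rep.tate c m) (2 * m) 1 where
  mul σ τ := by
    refine LinearEquiv.ext fun x => ?_
    change c.pow m (σ * τ) • x = c.pow m σ • c.pow m τ • x
    rw [pow_mul, mul_smul]
  cont := by
    intro L
    have : (fun σ => L (en ((Rep.tate c m).φ σ))) = fun σ => c.pow m σ * L 1 := by
      ext σ
      rw [tate_en, map_smul, smul_eq_mul]
    rw [this]
    exact (cont_zpow c m).mul continuous_const
  equi σ T x := by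
    change (Rep.tate c m).φ σ 0 = 0
    exact map_zero _
  weil := by
    intro v hv hp σ hσ j e he
    have hχ : c.pow m σ = j ((Ideal.absNorm v.asIdeal : QQ) ^ m) := by
      rw [Twist.pow, c.frob v hv σ hσ, map_zpow₀, map_natCast]
    have h1 := ne_bot_iff.2 he
    have h2 : e = c.pow m σ := by
      by_contra hne
      apply h1
      rw [eq_bot_iff]
      intro x hx
      have h3 := (en ((Rep.tate c m).φ σ)).independent_maxGenEigenspace
      have h4 := h3.pairwiseDisjoint hne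
      exact (Submodule.disjoint_def.1 h4) x hx (tate_gen c m σ x)
    refine ⟨_, h2 ▸ hχ.symm, ?_⟩
    exact WeilAt.pow_p hp.pos m
  nil := by
    intro v hv hp σ hσ j ι
    have hχ : c.pow m σ = j ((Ideal.absNorm v.asIdeal : QQ) ^ m) := by
      rw [Twist.pow, c.frob v hv σ hσ, map_zpow₀, map_natCast]
    have h1 : fop (en ((Rep.tate c m).φ σ)) (WI j ι (X.crys v hv hp).val).k =
        (((((2 * m : ℤ)) : ℚ) / 2 : ℚ) : Ω) • 1 := by
      refine LinearMap.ext fun x => ?_
      rw [fop_apply _ (tate_gen c m σ x), LinearMap.smul_apply]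
      congr 1
      rw [Wt.k]
      congr 1
      rw [hχ, WI_w, map_zpow₀, map_natCast, val_zpow hp _ (X.crys v hv hp).norm]
      push_cast
      ring
    rw [h1, sub_self]
    have h2 : (Rep.tate c m).ρ ((X.E.F σ).S2 (WI j ι (X.crys v hv hp).val)) = 0 := rfl
    rw [h2, sub_zero]
    exact IsNilpotent.zero

end tate

section hom

omit [CharZero Ω] [IsAlgClosed Ω] in
lemma cts_bilin [IsTopologicalRing Ω] {Γ V W : Type} [TopologicalSpace Γ] [AddCommGroup V]
    [Module Ω V] [FiniteDimensional Ω V] [AddCommGroup W] [Module Ω W] [FiniteDimensional Ω W]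
    {g : Γ → Module.End Ω V} {h : Γ → Module.End Ω W} (hg : Cts g) (hh : Cts h)
    (β : Module.End Ω V →ₗ[Ω] Module.End Ω W →ₗ[Ω] Ω) : Continuous fun σ => β (g σ) (h σ) := by
  set b := Module.finBasis Ω (Module.End Ω V)
  have h1 : (fun σ => β (g σ) (h σ)) = fun σ => ∑ i, b.repr (g σ) i * β (b i) (h σ) := by
    funext σ
    conv_lhs => rw [← b.sum_repr (g σ)]
    rw [map_sum, LinearMap.sum_apply]
    refine Finset.sum_congr rfl fun i _ => ?_
    rw [map_smul, LinearMap.smul_apply, smul_eq_mul]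
  rw [h1]
  refine continuous_finsetSum _ fun i _ => Continuous.mul ?_ (hh (β (b i)))
  exact hg (b.coord i)

theorem good_hom [IsTopologicalRing Ω] {A B : Rep X} {w w' : ℤ} {a b : ℕ} (hA : IsGood A w a)
    (hB : IsGood B w' b) : IsGood (A.hom B) (w' - w) (a * b) where
  mul σ τ := by
    refine LinearEquiv.ext fun f => LinearMap.ext fun x => ?_
    change B.φ (σ * τ) (f ((A.φ (σ * τ)).symm x)) =
      B.φ σ (B.φ τ (f ((A.φ τ).symm ((A.φ σ).symm x))))
    rw [hA.mul, hB.mul]
    rfl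
  cont := by
    intro L
    have hinv : ∀ σ, (A.φ σ).symm.toLinearMap = en (A.φ σ⁻¹) := by
      intro σ
      refine LinearMap.ext fun x => ?_
      change (A.φ σ).symm x = A.φ σ⁻¹ x
      rw [LinearEquiv.symm_apply_eq]
      have h1 := congrArg (fun f => f x) (hA.mul σ σ⁻¹)
      have h2 := congrArg (fun f => f (A.φ 1 x)) (hA.mul 1 1)
      rw [mul_inv_cancel] at h1
      rw [one_mul] at h2
      have h3 : A.φ 1 (A.φ 1 x) = A.φ 1 (A.φ 1 (A.φ 1 x)) := h2
      have h4 := (A.φ 1).injective ((A.φ 1).injective h3)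
      exact h4.trans h1
    have hc : Cts fun σ : GK K => (A.φ σ).symm.toLinearMap := by
      intro M
      have : (fun σ => M ((A.φ σ).symm.toLinearMap)) = fun σ => M (en (A.φ σ⁻¹)) := by
        funext σ
        rw [hinv]
      rw [this]
      exact (hA.cont M).comp continuous_inv
    let β : Module.End Ω B.V →ₗ[Ω] Module.End Ω A.V →ₗ[Ω] Ω :=
      LinearMap.mk₂ Ω (fun S R => L ((LinearMap.llcomp Ω A.V B.V B.V S) ∘ₗ (LinearMap.lcomp Ω B.V R)))
        (by
          intro S S' R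
          rw [← map_add]; rfl)
        (by
          intro c S R
          rw [smul_eq_mul, ← smul_eq_mul, ← map_smul]; rfl)
        (by
          intro S R R'
          rw [← map_add]
          congr 1
          ext f x
          simp [LinearMap.llcomp_apply])
        (by
          intro c S R
          rw [smul_eq_mul, ← smul_eq_mul, ← map_smul]
          congr 1
          ext f x
          simp [LinearMap.llcomp_apply])
    exact cts_bilin hB.cont hc β
  equi σ T f := by
    refine LinearMap.ext fun x => ?_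
    set T' := ((X.E.F σ).φ 2).toLinearMap ∘ₗ T ∘ₗ ((X.E.F σ).φ 2).symm.toLinearMap with hT'
    have h3 : ∀ y, B.φ σ (B.ρ T y) = B.ρ T' (B.φ σ y) := fun y => hB.equi σ T y
    have h4 : ∀ y, A.φ σ (A.ρ T y) = A.ρ T' (A.φ σ y) := fun y => hA.equi σ T y
    have h5 : A.ρ T ((A.φ σ).symm x) = (A.φ σ).symm (A.ρ T' x) := by
      rw [LinearEquiv.eq_symm_apply, h4, LinearEquiv.apply_symm_apply]
    change B.φ σ (B.ρ T (f ((A.φ σ).symm x)) - f (A.ρ T ((A.φ σ).symm x))) =
      B.ρ T' (B.φ σ (f ((A.φ σ).symm x))) - B.φ σ (f ((A.φ σ).symm (A.ρ T' x)))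
    rw [map_sub, h3, h5]
  weil := by
    intro v hv hp σ hσ j t ht
    have h1 := ne_bot_iff.2 ht
    obtain ⟨f, hf, hf0⟩ := Submodule.exists_mem_ne_zero_of_ne_bot h1
    obtain ⟨e, he, hte⟩ := arr_root (φ := A.φ σ) (ψ := B.φ σ) (f := f) hf0 hf
    have he0 : e ≠ 0 := root_ne he
    obtain ⟨y, hy, hyw⟩ := hA.weil v hv hp σ hσ j e he
    obtain ⟨y', hy', hyw'⟩ := hB.weil v hv hp σ hσ j _ hte
    refine ⟨y' / y, ?_, hyw.div hp.pos hyw'⟩
    rw [map_div₀, hy, hy', mul_div_assoc, div_self he0, mul_one]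
  nil := by
    intro v hv hp σ hσ j ι
    set W := WI j ι (X.crys v hv hp).val with hW
    have hUA : ∀ e ∈ (en (A.φ σ)).charpoly.roots, W.U e := by
      intro e he
      obtain ⟨y, rfl, hy⟩ := hA.weil v hv hp σ hσ j e he
      exact hy.U j ι _
    have hUB : ∀ e ∈ (en (B.φ σ)).charpoly.roots, W.U e := by
      intro e he
      obtain ⟨y, rfl, hy⟩ := hB.weil v hv hp σ hσ j e he
      exact hy.U j ι _
    have h1 := hA.nil v hv hp σ hσ j ι
    have h2 := hB.nil v hv hp σ hσ j ι
    rw [← hW] at h1 h2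
    have h3 : fop (en ((A.hom B).φ σ)) W.k = ppc (fop (en (A.φ σ)) W.k) (fop (en (B.φ σ)) W.k) :=
      arr_fop W hUA hUB
    have h4 : fop (en ((A.hom B).φ σ)) W.k - ((((w' - w : ℤ) : ℚ) / 2 : ℚ) : Ω) • 1 -
        (A.hom B).ρ ((X.E.F σ).S2 W) =
        ppc (fop (en (A.φ σ)) W.k - (((w : ℚ) / 2 : ℚ) : Ω) • 1 - A.ρ ((X.E.F σ).S2 W))
          (fop (en (B.φ σ)) W.k - (((w' : ℚ) / 2 : ℚ) : Ω) • 1 - B.ρ ((X.E.F σ).S2 W)) := by
      rw [h3]
      refine LinearMap.ext fun f => LinearMap.ext fun x => ?_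
      have h5 : ((((w' - w : ℤ) : ℚ) / 2 : ℚ) : Ω) =
          (((w' : ℚ) / 2 : ℚ) : Ω) - (((w : ℚ) / 2 : ℚ) : Ω) := by
        rw [← Rat.cast_sub]
        congr 1
        push_cast
        ring
      have h6 : ∀ T, (A.hom B).ρ T f = (B.ρ T) ∘ₗ f - f ∘ₗ (A.ρ T) := fun T => rfl
      rw [LinearMap.sub_apply, LinearMap.sub_apply, LinearMap.sub_apply, LinearMap.sub_apply, h6,
        ppc_apply, ppc_apply, h5]
      change (fop (en (B.φ σ)) W.k (f x) - f (fop (en (A.φ σ)) W.k x)) -
        ((((w' : ℚ) / 2 : ℚ) : Ω) - (((w : ℚ) / 2 : ℚ) : Ω)) • f x -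
        (B.ρ _ (f x) - f (A.ρ _ x)) =
        (fop (en (B.φ σ)) W.k (f x) - (((w' : ℚ) / 2 : ℚ) : Ω) • f x - B.ρ _ (f x)) -
        f (fop (en (A.φ σ)) W.k x - (((w : ℚ) / 2 : ℚ) : Ω) • x - A.ρ _ x)
      rw [map_sub, map_sub, map_smul, sub_smul]
      abel
    rw [h4]
    exact ppc_nil h1 h2

end hom

/-- The bound for the degrees of the Frobenius eigenvalues. -/
noncomputable def Expr.deg (X : HKVariety K Ω) : Expr → ℕ
  | .H i => finrank Ω (X.E.X.H i)
  | .tate _ => 1
  | .hom a b => a.deg X * b.deg X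

theorem good_ev [IsTopologicalRing Ω] (c : Twist X) : ∀ e : Expr, e.le X.d →
    IsGood (ev c e) e.wt (e.deg X)
  | .H _, h => good_coh h
  | .tate m, _ => good_tate c m
  | .hom a b, h => good_hom (good_ev c a h.1) (good_ev c b h.2)

end Pool.Agent.Run7.h261.MT
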