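import Pool.Agent.N184.HK.WDefs

/-!
# Tensor constructions with the cohomology of a hyperkähler variety: definitions
-/

set_option autoImplicit false

namespace Pool.Agent.Run7.h261.MT

open Module NumberField IsDedekindDomain
open Pool.Agent.W401.Cheb Pool.Agent.N184.HK

/-- Tensor constructions: the cohomology groups `H^i`, the powers of the Tate twist, and spaces of
linear maps. (The tensor product of `A` and `B` is the space of linear maps from the dual space of `A`
to `B`, and the dual space of `A` is the space of linear maps from `A` to `tate 0`.) -/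
inductive Expr : Type
  | H (i : ℕ) : Expr
  | tate (m : ℤ) : Expr
  | hom (a b : Expr) : Expr

/-- Only cohomology groups in degrees at most `d` occur. -/
def Expr.le (d : ℕ) : Expr → Prop
  | .H i => i ≤ d
  | .tate _ => True
  | .hom a b => a.le d ∧ b.le d

/-- Only the cohomology group `H^2` and Tate twists occur. -/
def Expr.two : Expr → Prop
  | .H i => i = 2
  | .tate _ => True
  | .hom a b => a.two ∧ b.two

/-- The weight of a tensor construction. The cohomology group `H^i` has weight `i`, and `tate m`, the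
representation `ℚ_ℓ(-m)`, has weight `2 m`. -/
def Expr.wt : Expr → ℤ
  | .H i => i
  | .tate m => 2 * m
  | .hom a b => b.wt - a.wt

section generic

variable {Ω : Type} [Field Ω] {V W : Type} [AddCommGroup V] [Module Ω V] [AddCommGroup W]
  [Module Ω W]

/-- The endomorphism `f ↦ S ∘ f - f ∘ R` of the space of linear maps from `V` to `W`. -/
def ppc (R : Module.End Ω V) (S : Module.End Ω W) : Module.End Ω (V →ₗ[Ω] W) :=
  LinearMap.compRight Ω S - LinearMap.lcomp Ω W R

/-- The endomorphism `ρ T` of `W`, for an action `ρ` on `W`. -/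
def opAt (ρ : Act Ω V W) (T : Module.End Ω V) : Module.End Ω W := ρ T

/-- The multiplication by the number `a ≠ 0`. -/
noncomputable def scal (a : Ω) (ha : a ≠ 0) : V ≃ₗ[Ω] V := LinearEquiv.smulOfNeZero Ω V a ha

/-- `ι` is compatible with the maps `S` and `T`. -/
def Commutes (ι : V →ₗ[Ω] W) (S : V → V) (T : W → W) : Prop := ∀ x, ι (S x) = T (ι x)

/-- The linear maps `ι k` from `V` to the spaces `W k` define an injective map to the direct sum of the
spaces `W k`. -/
def JointInj {n : ℕ} {W : Fin n → Type} [∀ k, AddCommGroup (W k)] [∀ k, Module Ω (W k)]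
    (ι : ∀ k, V →ₗ[Ω] W k) : Prop :=
  ∀ x, (∀ k, ι k x = 0) → x = 0

/-- Every subspace of `V` which is stable under the operators `φ g` has a complement which is stable
under the operators `φ g`. -/
def StableCompl {G : Type} (φ : G → V ≃ₗ[Ω] V) : Prop :=
  ∀ W : Submodule Ω V, (∀ g, ∀ x ∈ W, φ g x ∈ W) →
    ∃ W' : Submodule Ω V, (∀ g, ∀ x ∈ W', φ g x ∈ W') ∧ IsCompl W W'

end generic

section

variable {K : Type} [Field K] [NumberField K] {Ω : Type} [Field Ω] [TopologicalSpace Ω]

/-- A vector space with an action `φ` of the Galois group and an action `ρ` of `so(H²)`. -/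
structure Rep (X : HKVariety K Ω) where
  V : Type
  [grp : AddCommGroup V]
  [mod : Module Ω V]
  [fin : FiniteDimensional Ω V]
  φ : GK K → (V ≃ₗ[Ω] V)
  ρ : Module.End Ω (X.E.X.H 2) → Module.End Ω V

attribute [instance] Rep.grp Rep.mod Rep.fin

/-- The cohomology group `H^i`. -/
abbrev Rep.coh (X : HKVariety K Ω) (i : ℕ) : Rep X where
  V := X.E.X.H i
  φ σ := (X.E.F σ).φ i
  ρ T := opAt (X.E.X.ρ i) T

/-- The character `χ`, the inverse of the cyclotomic character: the geometric Frobenius elements of the
place `v` act as `N v`. It is the Galois representation `ℚ_ℓ(-1)`. -/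
structure Twist (X : HKVariety K Ω) where
  χ : GK K →* Ωˣ
  cont : Continuous fun σ => (χ σ : Ω)
  frob : ∀ v, v ∉ X.bad → ∀ σ, IsFrob v σ⁻¹ → (χ σ : Ω) = (Ideal.absNorm v.asIdeal : Ω)

/-- The number `χ(σ) ^ m`. -/
noncomputable def Twist.pow {X : HKVariety K Ω} (c : Twist X) (m : ℤ) (σ : GK K) : Ω := (c.χ σ : Ω) ^ m

lemma Twist.pow_ne {X : HKVariety K Ω} (c : Twist X) (m : ℤ) (σ : GK K) : c.pow m σ ≠ 0 :=
  zpow_ne_zero m (Units.ne_zero _)

/-- The representation `ℚ_ℓ(-m)`. -/
noncomputable abbrev Rep.tate {X : HKVariety K Ω} (c : Twist X) (m : ℤ) : Rep X where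
  V := Ω
  φ σ := scal (c.pow m σ) (c.pow_ne m σ)
  ρ _ := 0

/-- The space of linear maps from `A` to `B`. The action of the Lie algebra is `f ↦ T ∘ f - f ∘ T`. -/
abbrev Rep.hom {X : HKVariety K Ω} (A B : Rep X) : Rep X where
  V := A.V →ₗ[Ω] B.V
  φ σ := LinearEquiv.arrowCongr (A.φ σ) (B.φ σ)
  ρ T := ppc (A.ρ T) (B.ρ T)

/-- The value of a tensor construction. -/
noncomputable def ev {X : HKVariety K Ω} (c : Twist X) : Expr → Rep X
  | .H i => Rep.coh X i
  | .tate m => Rep.tate c m
  | .hom a b => (ev c a).hom (ev c b)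

/-- The linear map `ι` is compatible with the actions of `so(H²)`. -/
def Rep.SoMap {X : HKVariety K Ω} (A B : Rep X) (ι : A.V →ₗ[Ω] B.V) : Prop :=
  ∀ T, Skew X.E.X.q T → Commutes ι (A.ρ T) (B.ρ T)

/-- The action of `σ` on the Tate twist `A(m)`: `σ` acts as `χ(σ) ^ (-m) φ(σ)`. -/
noncomputable def Rep.act {X : HKVariety K Ω} (c : Twist X) (A : Rep X) (m : ℤ) (σ : GK K) (x : A.V) : A.V :=
  c.pow (-m) σ • A.φ σ x

/-- The element `x` of `A(m)` is fixed by the subgroup `U` of the Galois group. -/
def Rep.Fixes {X : HKVariety K Ω} (c : Twist X) (A : Rep X) (m : ℤ) (U : Subgroup (GK K))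
    (x : A.V) : Prop :=
  ∀ σ ∈ U, A.act c m σ x = x

/-- `x` is a Tate class: `e` has an even weight `2 m`, and `x ∈ e(m)` is fixed by an open subgroup of
the Galois group. -/
def IsTate {X : HKVariety K Ω} (c : Twist X) (e : Expr) (x : (ev c e).V) : Prop :=
  ∃ m : ℤ, e.wt = 2 * m ∧ ∃ U : Subgroup (GK K), IsOpen (U : Set (GK K)) ∧
    (ev c e).Fixes c m U x

/-- Extensions of trivial representations by trivial representations of open subgroups `U` of the Galois
group, inside of the twisted tensor constructions `e(m)`, of weight zero, split: if `u x - x` is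
invariant for all `u ∈ U` then `x` is invariant. This is known: `e(m)` is unramified at almost all
places and de Rham at the places above `ℓ` (Faltings), and `H¹_g(K', ℚ_ℓ) = 0` for all number fields
`K'` (Bloch, Kato: a homomorphism to `ℚ_ℓ` which is de Rham is unramified at all places, so it factors
through a class group). -/
def Rigid {X : HKVariety K Ω} (c : Twist X) : Prop :=
  ∀ e : Expr, e.le X.d → ∀ m : ℤ, e.wt = 2 * m → ∀ U : Subgroup (GK K),
    IsOpen (U : Set (GK K)) → ∀ x : (ev c e).V,
    (∀ σ ∈ U, (ev c e).Fixes c m U ((ev c e).act c m σ x - x)) → (ev c e).Fixes c m U x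

/-- The tensor construction `e` is a semisimple representation of the subgroup `U` of the Galois
group: every stable subspace has a stable complement. -/
def IsSemi {X : HKVariety K Ω} (c : Twist X) (e : Expr) (U : Subgroup (GK K)) : Prop :=
  StableCompl fun σ : U => (ev c e).φ σ

end

end Pool.Agent.Run7.h261.MT
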