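import Pool.Agent.Run7.h261.MT.MTC

/-!
# Semisimplicity of the good Frobenius elements
-/

set_option autoImplicit false
set_option linter.unusedSectionVars false

namespace Pool.Agent.Run7.h261.MT

open Module Module.End NumberField IsDedekindDomain
open Pool.Agent.W401.Cheb Pool.Agent.N184.HK

section diag

variable {Ω : Type} [Field Ω] [CharZero Ω] [IsAlgClosed Ω] {V : Type} [AddCommGroup V] [Module Ω V]
  [FiniteDimensional Ω V]

/-- There are no Jordan blocks of size two. -/
def NoJordan (f : Module.End Ω V) : Prop :=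
  ∀ (t : Ω) (x : V), (f - t • 1) ((f - t • 1) x) = 0 → (f - t • 1) x = 0

/-- `f` is diagonalizable. -/
def Diag (f : Module.End Ω V) : Prop := ⨆ t, f.eigenspace t = ⊤

omit [CharZero Ω] in
lemma diag_iff {f : Module.End Ω V} : Diag f ↔ NoJordan f := by
  constructor
  · intro h t x hx
    have hle : ∀ s, f.eigenspace s ≤ f.maxGenEigenspace s := fun s => by
      intro y hy
      rw [Module.End.mem_maxGenEigenspace]
      refine ⟨1, ?_⟩
      rw [pow_one, LinearMap.sub_apply, Module.End.mem_eigenspace_iff.1 hy, LinearMap.smul_apply]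
      exact sub_self _
    have hx1 : x ∈ f.maxGenEigenspace t := by
      rw [Module.End.mem_maxGenEigenspace]
      refine ⟨2, ?_⟩
      rw [sq, Module.End.mul_apply]
      exact hx
    -- decompose `x`
    have h1 : x ∈ f.eigenspace t ⊔ ⨆ s ∈ {s | s ≠ t}, f.eigenspace s := by
      have h2 : (⊤ : Submodule Ω V) ≤ f.eigenspace t ⊔ ⨆ s ∈ {s | s ≠ t}, f.eigenspace s := by
        rw [← h]
        refine iSup_le fun s => ?_
        by_cases hs : s = t
        · rw [hs]; exact le_sup_left
        · exact le_sup_of_le_right (le_iSup₂_of_le s hs le_rfl)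
      exact h2 trivial
    obtain ⟨y, hy, z, hz, rfl⟩ := Submodule.mem_sup.1 h1
    have h3 : z ∈ f.maxGenEigenspace t := by
      have := (f.maxGenEigenspace t).sub_mem hx1 (hle t hy)
      rwa [add_sub_cancel_left] at this
    have h4 : z ∈ ⨆ s ∈ {s | s ≠ t}, f.maxGenEigenspace s :=
      (iSup₂_mono fun s _ => hle s) hz
    have h5 := (f.independent_maxGenEigenspace) t
    have h6 : z = 0 := (Submodule.disjoint_def.1 h5) z h3 h4
    rw [h6, add_zero, LinearMap.sub_apply, Module.End.mem_eigenspace_iff.1 hy,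
      LinearMap.smul_apply]
    exact sub_self _
  · intro h
    have h1 : ∀ t, f.maxGenEigenspace t ≤ f.eigenspace t := by
      intro t x hx
      rw [Module.End.mem_maxGenEigenspace] at hx
      obtain ⟨k, hk⟩ := hx
      rw [Module.End.mem_eigenspace_iff, ← sub_eq_zero]
      change (f - t • 1) x = 0
      induction k with
      | zero =>
        have : x = 0 := hk
        rw [this, map_zero]
      | succ k ih =>
        rcases k with _ | k
        · rw [pow_one] at hk
          exact hk
        · refine ih ?_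
          have h2 : (f - t • 1) ((f - t • 1) (((f - t • 1) ^ k) x)) = 0 := by
            rw [← Module.End.mul_apply, ← Module.End.mul_apply, ← sq, ← pow_add, add_comm 2 k]
            exact hk
          have h3 := h t _ h2
          rw [← Module.End.mul_apply, ← _root_.pow_succ'] at h3
          exact h3
    rw [Diag, eq_top_iff, ← Module.End.iSup_maxGenEigenspace_eq_top f]
    exact iSup_mono h1

omit [CharZero Ω] [IsAlgClosed Ω] [FiniteDimensional Ω V] in
lemma diag_pow {f : Module.End Ω V} (h : Diag f) (n : ℕ) : Diag (f ^ n) := by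
  rw [Diag, eq_top_iff, ← h]
  refine iSup_le fun t x hx => ?_
  refine Submodule.mem_iSup_of_mem (t ^ n) ?_
  rw [Module.End.mem_eigenspace_iff] at hx ⊢
  induction n with
  | zero => simp
  | succ n ih =>
    rw [_root_.pow_succ, Module.End.mul_apply, hx, map_smul, ih, smul_smul, ← _root_.pow_succ']

omit [IsAlgClosed Ω] [FiniteDimensional Ω V] in
lemma noJordan_of_pow {f : Module.End Ω V} {n : ℕ} (hn : n ≠ 0) (hf : Function.Injective f)
    (h : NoJordan (f ^ n)) : NoJordan f := by
  intro t x hx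
  set y := (f - t • 1) x with hy
  have h1 : f y = t • y := by
    rw [LinearMap.sub_apply] at hx
    exact sub_eq_zero.1 hx
  have h2 : f x = t • x + y := by
    rw [hy, LinearMap.sub_apply]
    change f x = t • x + (f x - t • x)
    abel
  have h3 : ∀ n : ℕ, (f ^ n) y = t ^ n • y := by
    intro n
    induction n with
    | zero => simp
    | succ n ih => rw [_root_.pow_succ', Module.End.mul_apply, ih, map_smul, h1, smul_smul, _root_.pow_succ]
  have h4 : ∀ n : ℕ, (f ^ (n + 1)) x = t ^ (n + 1) • x + ((n + 1 : ℕ) * t ^ n) • y := by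
    intro n
    induction n with
    | zero => simp [h2]
    | succ n ih =>
      rw [_root_.pow_succ', Module.End.mul_apply, ih, map_add, map_smul, map_smul, h1, h2,
        smul_add, smul_smul, smul_smul, add_assoc, ← add_smul, ← _root_.pow_succ]
      congr 2
      push_cast
      ring
  obtain ⟨m, rfl⟩ := Nat.exists_eq_succ_of_ne_zero hn
  have h5 : (f ^ (m + 1) - t ^ (m + 1) • (1 : Module.End Ω V)) x = ((m + 1 : ℕ) * t ^ m) • y := by
    rw [LinearMap.sub_apply, h4]
    change _ - t ^ (m + 1) • x = _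
    abel
  have h6 := h (t ^ (m + 1)) x (by
    rw [Nat.succ_eq_add_one, h5, map_smul, LinearMap.sub_apply, h3]
    change _ • (t ^ (m + 1) • y - t ^ (m + 1) • y) = _
    rw [sub_self, smul_zero])
  rw [Nat.succ_eq_add_one, h5] at h6
  rcases smul_eq_zero.1 h6 with h7 | h7
  · rcases mul_eq_zero.1 h7 with h8 | h8
    · exact absurd h8 (by exact_mod_cast Nat.succ_ne_zero m)
    · have h9 : t = 0 := eq_zero_of_pow_eq_zero h8
      rw [h9, zero_smul] at h1
      exact hf (h1.trans (map_zero f).symm)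
  · exact h7

omit [CharZero Ω] [IsAlgClosed Ω] [FiniteDimensional Ω V] in
lemma noJordan_of_inj {n : ℕ} {V' : Fin n → Type} [∀ k, AddCommGroup (V' k)]
    [∀ k, Module Ω (V' k)] {f : Module.End Ω V} {g : ∀ k, Module.End Ω (V' k)}
    (hg : ∀ k, NoJordan (g k)) (ι : ∀ k, V →ₗ[Ω] V' k) (hι : ∀ k x, ι k (f x) = g k (ι k x))
    (hinj : ∀ x, (∀ k, ι k x = 0) → x = 0) : NoJordan f := by
  have h1 : ∀ k (t : Ω) x, ι k ((f - t • 1) x) = (g k - t • 1) (ι k x) := by
    intro k t x
    change ι k (f x - t • x) = g k (ι k x) - t • ι k x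
    rw [map_sub, map_smul, hι]
  intro t x hx
  refine hinj _ fun k => ?_
  rw [h1]
  refine hg k t _ ?_
  rw [← h1, ← h1, hx, map_zero]

variable {W : Type} [AddCommGroup W] [Module Ω W] [FiniteDimensional Ω W]

omit [CharZero Ω] in
/-- The action on linear maps is diagonalizable. -/
lemma diag_arr {φ : V ≃ₗ[Ω] V} {ψ : W ≃ₗ[Ω] W} (h1 : Diag (en φ)) (h2 : Diag (en ψ)) :
    Diag (arr φ ψ) := by
  rw [diag_iff] at h2 ⊢
  intro t f hf
  -- on eigenvectors
  have key : ∀ (f : V →ₗ[Ω] W) (a : Ω) (x : V), φ x = a • x → a ≠ 0 →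
      ((arr φ ψ - t • 1) f) x = a⁻¹ • (en ψ - (t * a) • 1) (f x) := by
    intro f a x hx ha
    have h3 := arr_apply φ ψ f x
    rw [hx, map_smul] at h3
    have h4 : arr φ ψ f x = a⁻¹ • ψ (f x) := by
      rw [← h3, smul_smul, inv_mul_cancel₀ ha, one_smul]
    change arr φ ψ f x - t • f x = a⁻¹ • (ψ (f x) - (t * a) • f x)
    rw [h4, smul_sub, smul_smul, mul_comm t a, inv_mul_cancel_left₀ ha]
  have h3 : (⨆ a, (en φ).eigenspace a) ≤ LinearMap.ker ((arr φ ψ - t • 1) f) := by
    refine iSup_le fun a x hx => ?_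
    rw [Module.End.mem_eigenspace_iff] at hx
    change φ x = a • x at hx
    rw [LinearMap.mem_ker]
    by_cases hx0 : x = 0
    · rw [hx0, map_zero]
    have ha : a ≠ 0 := by
      rintro rfl
      rw [zero_smul] at hx
      exact hx0 (φ.injective (hx.trans (map_zero _).symm))
    rw [key f a x hx ha]
    have h4 := key ((arr φ ψ - t • 1) f) a x hx ha
    rw [hf, key f a x hx ha, LinearMap.zero_apply, map_smul, smul_smul] at h4
    have h5 := (smul_eq_zero.1 h4.symm).resolve_left
      (mul_ne_zero (inv_ne_zero ha) (inv_ne_zero ha))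
    rw [h2 _ _ h5, smul_zero]
  rw [h1] at h3
  refine LinearMap.ext fun x => ?_
  exact LinearMap.mem_ker.1 (h3 trivial)

/-- If the action on `End V` is diagonalizable then the action on `V` is. -/
lemma noJordan_of_arr {φ : V ≃ₗ[Ω] V} (h : NoJordan (arr φ φ)) : NoJordan (en φ) := by
  rcases subsingleton_or_nontrivial V with hs | hs
  · exact fun t x _ => Subsingleton.elim _ _
  -- an eigenvector of the transpose
  obtain ⟨s, hs⟩ := Module.End.exists_eigenvalue
    (LinearMap.lcomp Ω Ω φ.symm.toLinearMap : Module.End Ω (V →ₗ[Ω] Ω))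
  obtain ⟨ξ, hξ⟩ := hs.exists_hasEigenvector
  have h1 : ∀ x, ξ (φ.symm x) = s * ξ x := fun x => congrArg (fun g : V →ₗ[Ω] Ω => g x) hξ.apply_eq_smul
  have h2 : ∃ x, ξ x ≠ 0 := by
    by_contra hcon
    push Not at hcon
    exact hξ.2 (LinearMap.ext hcon)
  obtain ⟨y, hy⟩ := h2
  have hs0 : s ≠ 0 := by
    rintro rfl
    have := h1 (φ y)
    rw [LinearEquiv.symm_apply_apply, zero_mul] at this
    exact hy this
  intro t x hx
  have h3 : ∀ (t : Ω) x, (arr φ φ - (t * s) • 1) (ξ.smulRight x) =
      s • ξ.smulRight ((en φ - t • 1) x) := by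
    intro t x
    refine LinearMap.ext fun z => ?_
    change φ (ξ (φ.symm z) • x) - (t * s) • (ξ z • x) = s • (ξ z • (φ x - t • x))
    rw [map_smul, h1, smul_sub, smul_sub, smul_smul, smul_smul, smul_smul, smul_smul]
    congr 2
    ring
  have h4 := h (t * s) (ξ.smulRight x) (by rw [h3, map_smul, h3, hx]; simp)
  rw [h3] at h4
  have h5 := congrArg (fun g : V →ₗ[Ω] V => g y) h4
  change s • (ξ y • (en φ - t • 1) x) = 0 at h5
  exact (smul_eq_zero.1 ((smul_eq_zero.1 h5).resolve_left hs0)).resolve_left hy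

end diag

variable {K : Type} [Field K] [NumberField K] {Ω : Type} [Field Ω] [CharZero Ω] [IsAlgClosed Ω]
  [TopologicalSpace Ω] {X : HKVariety K Ω}

lemma diag_two (c : Twist X) {σ : GK K} (h : Diag (en ((X.E.F σ).φ 2))) :
    ∀ e : Expr, e.two → Diag (en ((ev c e).φ σ))
  | .H i, hi => by
    have : i = 2 := hi
    subst this
    exact h
  | .tate m, _ => by
    rw [Diag, eq_top_iff]
    intro x _
    refine Submodule.mem_iSup_of_mem (c.pow m σ) ?_
    rw [Module.End.mem_eigenspace_iff]
    rfl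
  | .hom a b, hab => diag_arr (diag_two c h a hab.1) (diag_two c h b hab.2)

variable [IsTopologicalRing Ω] [T2Space Ω]

/-- If `σ` acts semisimply on `H²` then it acts semisimply on all tensor constructions. -/
theorem frob_semi (D : HodgeData X) (c : Twist X) (hc : Rigid c)
    (hV : ∀ e : Expr, e.le X.d → Even e.wt → D.InTwo c e)
    {σ : GK K} (hσ : Diag (en ((X.E.F σ).φ 2))) {e : Expr} (he : e.le X.d) :
    Diag (en ((ev c e).φ σ)) := by
  have heven : ∀ e : Expr, e.le X.d → Even e.wt → Diag (en ((ev c e).φ σ)) := by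
    intro e he hw
    have hA := good_ev c e he
    obtain ⟨n, f, ι, hf, hrm, hinj⟩ := hV e he hw
    have hU : ∀ k, ∃ U : Subgroup (GK K), IsOpen (U : Set (GK K)) ∧
        ∀ σ ∈ U, ∀ x, ι k ((ev c e).φ σ x) = (ev c (f k)).φ σ (ι k x) := by
      intro k
      obtain ⟨U, hU, h⟩ := equi_open c hc he ((hf k).1.le X.two_le) (hf k).2
      exact ⟨U, hU, h (ι k) (hrm k).2⟩
    choose U hU hUι using hU
    have hop : IsOpen ((⨅ k, U k : Subgroup (GK K)) : Set (GK K)) := by
      rw [Subgroup.coe_iInf]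
      exact isOpen_iInter_of_finite fun k => hU k
    have : Finite (GK K ⧸ (⨅ k, U k : Subgroup (GK K))) := Subgroup.quotient_finite_of_isOpen _ hop
    have hfi : (⨅ k, U k : Subgroup (GK K)).FiniteIndex := Subgroup.finiteIndex_of_finite_quotient
    obtain ⟨N, hN, hN'⟩ : ∃ N, N ≠ 0 ∧ σ ^ N ∈ (⨅ k, U k : Subgroup (GK K)) := by
      obtain ⟨N, hN, -, h⟩ := Subgroup.exists_pow_mem_of_index_ne_zero hfi.index_ne_zero σ
      exact ⟨N, hN.ne', h⟩
    have hpow : ∀ {A : Rep X} {w : ℤ} {B : ℕ} (_ : IsGood A w B) (N : ℕ),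
        en (A.φ (σ ^ N)) = (en (A.φ σ)) ^ N := by
      intro A w B hA N
      induction N with
      | zero => exact LinearMap.ext fun x => by rw [_root_.pow_zero, _root_.pow_zero]; exact hA.one x
      | succ N ih =>
        rw [_root_.pow_succ', _root_.pow_succ', ← ih]
        refine LinearMap.ext fun x => ?_
        change A.φ (σ * σ ^ N) x = A.φ σ (A.φ (σ ^ N) x)
        rw [hA.mul]
        rfl
    rw [diag_iff]
    refine noJordan_of_pow hN ((ev c e).φ σ).injective ?_
    rw [← hpow hA]
    refine noJordan_of_inj (g := fun k => en ((ev c (f k)).φ (σ ^ N))) (fun k => ?_) ι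
      (fun k x => hUι k _ ((Subgroup.mem_iInf.1 hN') k) x) hinj
    rw [hpow (good_ev c (f k) ((hf k).1.le X.two_le))]
    exact diag_iff.1 (diag_pow (diag_two c hσ (f k) (hf k).1) N)
  have hle : (Expr.hom e e).le X.d := ⟨he, he⟩
  have h1 := heven (Expr.hom e e) hle ⟨0, by change e.wt - e.wt = 0 + 0; omega⟩
  rw [diag_iff] at h1 ⊢
  exact noJordan_of_arr (φ := (ev c e).φ σ) h1

end Pool.Agent.Run7.h261.MT
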