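import Mathlib

/-!
# Rational structures
-/

set_option autoImplicit false
set_option linter.unusedSectionVars false

namespace Pool.Agent.Run7.h261.MT

open Module

section

variable {Ω : Type} [Field Ω] [CharZero Ω]

/-- `L` is a rational structure of `V`: the set of the vectors which have rational coordinates in some
basis. -/
def IsForm {V : Type} [AddCommGroup V] [Module Ω V] (L : Set V) : Prop :=
  ∃ (κ : Type) (_ : Fintype κ) (b : Basis κ Ω V), L = {x | ∀ i, ∃ r : ℚ, b.repr x i = (r : Ω)}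

lemma isForm_one : IsForm (Ω := Ω) {x : Ω | ∃ r : ℚ, x = (r : Ω)} := by
  refine ⟨Unit, inferInstance, Basis.singleton Unit Ω, ?_⟩
  ext x
  simp

variable {V W : Type} [AddCommGroup V] [Module Ω V] [AddCommGroup W] [Module Ω W]

lemma isForm_hom {L : Set V} {M : Set W} (hL : IsForm (Ω := Ω) L) (hM : IsForm (Ω := Ω) M) :
    IsForm (Ω := Ω) {f : V →ₗ[Ω] W | ∀ x ∈ L, f x ∈ M} := by
  classical
  obtain ⟨κ, _, b, rfl⟩ := hL
  obtain ⟨κ', _, b', rfl⟩ := hM
  let e : (V →ₗ[Ω] W) ≃ₗ[Ω] (κ' × κ → Ω) :=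
    (LinearMap.toMatrix b b').trans (LinearEquiv.curry Ω Ω κ' κ).symm
  refine ⟨κ' × κ, inferInstance, Basis.ofEquivFun e, ?_⟩
  have he : ∀ f i, (Basis.ofEquivFun e).repr f i = b'.repr (f (b i.2)) i.1 := by
    rintro f ⟨j, i⟩
    rw [Basis.ofEquivFun_repr_apply]
    change LinearMap.toMatrix b b' f j i = _
    rw [LinearMap.toMatrix_apply]
  ext f
  simp only [Set.mem_ofPred_eq]
  constructor
  · intro h ji
    rw [he]
    refine h (b ji.2) (fun i => ?_) ji.1
    rw [Basis.repr_self, Finsupp.single_apply]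
    split_ifs
    · exact ⟨1, by simp⟩
    · exact ⟨0, by simp⟩
  · intro h x hx j
    choose r hr using hx
    choose s hs using h
    refine ⟨∑ i, r i * s (j, i), ?_⟩
    conv_lhs => rw [← b.sum_repr x]
    rw [map_sum, map_sum, Finsupp.finsetSum_apply, Rat.cast_sum]
    refine Finset.sum_congr rfl fun i _ => ?_
    rw [map_smul, map_smul, Finsupp.smul_apply, smul_eq_mul, hr, Rat.cast_mul, ← hs (j, i), he]

/-- The part `lam x` of `x`, for a `ℚ`-linear form `lam` of `Ω`. -/
noncomputable def part {κ : Type} [Fintype κ] (b : Basis κ Ω V) (lam : Ω →ₗ[ℚ] ℚ) (x : V) : V :=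
  ∑ i, ((lam (b.repr x i) : ℚ) : Ω) • b i

lemma part_repr {κ : Type} [Fintype κ] (b : Basis κ Ω V) (lam : Ω →ₗ[ℚ] ℚ) (x : V) (i : κ) :
    b.repr (part b lam x) i = ((lam (b.repr x i) : ℚ) : Ω) := by
  classical
  rw [part, map_sum, Finsupp.finsetSum_apply, Finset.sum_eq_single i]
  · rw [map_smul, Finsupp.smul_apply, Basis.repr_self, Finsupp.single_eq_same, smul_eq_mul, mul_one]
  · intro j _ hj
    rw [map_smul, Finsupp.smul_apply, Basis.repr_self, Finsupp.single_eq_of_ne (Ne.symm hj), smul_zero]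
  · intro h
    exact absurd (Finset.mem_univ i) h

lemma part_add {κ : Type} [Fintype κ] (b : Basis κ Ω V) (lam : Ω →ₗ[ℚ] ℚ) (x y : V) :
    part b lam (x + y) = part b lam x + part b lam y := by
  refine b.ext_elem fun i => ?_
  rw [part_repr, map_add, map_add, Finsupp.add_apply, Finsupp.add_apply, map_add, part_repr,
    part_repr, Rat.cast_add]

lemma part_zero {κ : Type} [Fintype κ] (b : Basis κ Ω V) (lam : Ω →ₗ[ℚ] ℚ) :
    part b lam (0 : V) = 0 := by
  refine b.ext_elem fun i => ?_
  rw [part_repr, map_zero, Finsupp.zero_apply, map_zero, Rat.cast_zero]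

lemma part_smul {κ : Type} [Fintype κ] (b : Basis κ Ω V) (lam : Ω →ₗ[ℚ] ℚ) (w : Ω) {x : V}
    (hx : ∀ i, ∃ r : ℚ, b.repr x i = (r : Ω)) : part b lam (w • x) = ((lam w : ℚ) : Ω) • x := by
  refine b.ext_elem fun i => ?_
  obtain ⟨r, hr⟩ := hx i
  have h1 : b.repr (w • x) i = r • w := by
    rw [map_smul, Finsupp.smul_apply, hr, smul_eq_mul, mul_comm, Rat.smul_def]
  have h2 : b.repr (((lam w : ℚ) : Ω) • x) i = ((lam w : ℚ) : Ω) * (r : Ω) := by
    rw [map_smul, Finsupp.smul_apply, hr, smul_eq_mul]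
  rw [part_repr, h1, h2, map_smul, smul_eq_mul, Rat.cast_mul, mul_comm]

/-- Rational maps commute with the forms. -/
lemma part_map {κ κ' : Type} [Fintype κ] [Fintype κ'] (b : Basis κ Ω V) (b' : Basis κ' Ω W)
    (lam : Ω →ₗ[ℚ] ℚ) {f : V →ₗ[Ω] W}
    (hf : ∀ x, (∀ i, ∃ r : ℚ, b.repr x i = (r : Ω)) → ∀ i, ∃ r : ℚ, b'.repr (f x) i = (r : Ω))
    (x : V) : f (part b lam x) = part b' lam (f x) := by
  classical
  have h1 : x = ∑ i, b.repr x i • b i := (b.sum_repr x).symm
  have h2 : ∀ s : Finset κ, part b' lam (∑ i ∈ s, b.repr x i • f (b i)) =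
      ∑ i ∈ s, ((lam (b.repr x i) : ℚ) : Ω) • f (b i) := by
    intro s
    induction s using Finset.induction_on with
    | empty => rw [Finset.sum_empty, Finset.sum_empty, part_zero]
    | insert i s hi ih =>
      rw [Finset.sum_insert hi, Finset.sum_insert hi, part_add, ih, part_smul]
      refine hf _ fun j => ?_
      rw [Basis.repr_self, Finsupp.single_apply]
      split_ifs
      · exact ⟨1, by simp⟩
      · exact ⟨0, by simp⟩
  have h3 : f x = ∑ i, b.repr x i • f (b i) := by
    conv_lhs => rw [h1]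
    rw [map_sum]
    exact Finset.sum_congr rfl fun i _ => map_smul _ _ _
  rw [h3, h2, part, map_sum]
  exact Finset.sum_congr rfl fun i _ => map_smul _ _ _

/-- Every vector is a linear combination of its parts. -/
lemma mem_span_part {κ : Type} [Fintype κ] (b : Basis κ Ω V) (x : V) :
    x ∈ Submodule.span Ω (Set.range fun lam : Ω →ₗ[ℚ] ℚ => part b lam x) := by
  classical
  -- a basis of the span of the coordinates
  set S : Submodule ℚ Ω := Submodule.span ℚ (Set.range fun i => b.repr x i) with hS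
  have : FiniteDimensional ℚ S := FiniteDimensional.span_of_finite ℚ (Set.finite_range _)
  set β := Module.finBasis ℚ S with hβ
  obtain ⟨P, hP⟩ := LinearMap.exists_leftInverse_of_injective S.subtype (Submodule.ker_subtype _)
  have h1 : ∀ i, b.repr x i = ∑ s, ((β.coord s (P (b.repr x i)) : ℚ) : Ω) * (β s : Ω) := by
    intro i
    have h2 : b.repr x i ∈ S := Submodule.subset_span ⟨i, rfl⟩
    have h3 : P (b.repr x i) = ⟨b.repr x i, h2⟩ := congrArg (fun g => g ⟨b.repr x i, h2⟩) hP
    have h4 := β.sum_repr (P (b.repr x i))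
    have h5 := congrArg Subtype.val h4
    have h6 : (P (b.repr x i) : Ω) = b.repr x i := congrArg Subtype.val h3
    rw [h6, AddSubmonoidClass.coe_finsetSum] at h5
    refine h5.symm.trans (Finset.sum_congr rfl fun s _ => ?_)
    rw [Submodule.coe_smul, Rat.smul_def]
    rfl
  have h2 : x = ∑ s, (β s : Ω) • part b ((β.coord s) ∘ₗ P) x := by
    refine b.ext_elem fun i => ?_
    rw [map_sum, Finsupp.finsetSum_apply, h1 i]
    refine Finset.sum_congr rfl fun s _ => ?_
    rw [map_smul, Finsupp.smul_apply, part_repr, smul_eq_mul, mul_comm]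
    rfl
  have h3 : ∀ s, (β s : Ω) • part b ((β.coord s) ∘ₗ P) x ∈
      Submodule.span Ω (Set.range fun lam : Ω →ₗ[ℚ] ℚ => part b lam x) := fun s =>
    Submodule.smul_mem _ _ (Submodule.subset_span ⟨(β.coord s) ∘ₗ P, rfl⟩)
  have h4 := Submodule.sum_mem (Submodule.span Ω (Set.range fun lam : Ω →ₗ[ℚ] ℚ => part b lam x))
    (t := Finset.univ) fun s _ => h3 s
  rw [← h2] at h4
  exact h4

/-- **Descent**: let `f k : V → W k` be rational maps which are compatible with the operators `J` on `V`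
and `J k` on `W k`, such that only `0` is mapped to `0` by all of them. A vector `x` is a linear
combination of rational vectors which are killed by `J` if this holds for all `f k x`. -/
theorem descent {n : ℕ} {W : Fin n → Type} [∀ k, AddCommGroup (W k)] [∀ k, Module Ω (W k)]
    {L : Set V} (hL : IsForm (Ω := Ω) L) {M : ∀ k, Set (W k)} (hM : ∀ k, IsForm (Ω := Ω) (M k))
    (f : ∀ k, V →ₗ[Ω] W k) (hf : ∀ k, ∀ x ∈ L, f k x ∈ M k) (hinj : ∀ x, (∀ k, f k x = 0) → x = 0)
    (J : Module.End Ω V) (J' : ∀ k, Module.End Ω (W k)) (hJ : ∀ k x, f k (J x) = J' k (f k x))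
    {x : V} (hx : ∀ k, f k x ∈ Submodule.span Ω {y | y ∈ M k ∧ J' k y = 0}) :
    x ∈ Submodule.span Ω {y | y ∈ L ∧ J y = 0} := by
  obtain ⟨κ, _, b, hb⟩ := hL
  refine Submodule.span_le.2 ?_ (mem_span_part b x)
  rintro _ ⟨lam, rfl⟩
  refine Submodule.subset_span ⟨?_, hinj _ fun k => ?_⟩
  · rw [hb]
    exact fun i => ⟨_, part_repr b lam x i⟩
  · obtain ⟨κ', _, b', hb'⟩ := hM k
    change f k (J (part b lam x)) = 0
    rw [hJ, part_map b b' lam (f := f k) (by
      intro x hx
      have h1 : x ∈ L := by rw [hb]; exact hx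
      have h2 := hf k x h1
      rw [hb'] at h2
      exact h2)]
    have h6 : ∀ z ∈ Submodule.span Ω {y | y ∈ M k ∧ J' k y = 0}, ∀ a : Ω,
        J' k (part b' lam (a • z)) = 0 := by
      intro z hz
      induction hz using Submodule.span_induction with
      | mem z hz =>
        intro a
        have h4 := hz.1
        rw [hb'] at h4
        rw [part_smul b' lam a h4, map_smul, hz.2, smul_zero]
      | zero => intro a; rw [smul_zero, part_zero, map_zero]
      | add y z _ _ h1 h2 => intro a; rw [smul_add, part_add, map_add, h1, h2, add_zero]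
      | smul c y _ h => intro a; rw [smul_smul]; exact h _
    have h7 := h6 _ (hx k) 1
    rwa [one_smul] at h7

end

end Pool.Agent.Run7.h261.MT
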