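import Pool.Agent.Run7.h261.MT.Sem

/-!
# Semisimple representations: subgroups of finite index and endomorphisms
-/

set_option autoImplicit false
set_option linter.unusedSectionVars false

namespace Pool.Agent.Run7.h261.MT

open Module

section

variable {Ω : Type} [Field Ω] {V : Type} [AddCommGroup V] [Module Ω V]

/-- the projection onto a subspace -/
lemma exists_proj {G : Type} {φ : G → Module.End Ω V} (h : Semi φ) {W : Submodule Ω V}
    (hW : ∀ g, ∀ x ∈ W, φ g x ∈ W) : ∃ P : Module.End Ω V, (∀ x, P x ∈ W) ∧ (∀ x ∈ W, P x = x) ∧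
      ∀ g x, P (φ g x) = φ g (P x) := by
  obtain ⟨W', hW', hc⟩ := h W hW
  refine ⟨W.subtype ∘ₗ Submodule.projectionOnto W W' hc, fun x => ?_, fun x hx => ?_,
    fun g x => ?_⟩
  · exact (Submodule.projectionOnto W W' hc x).2
  · exact congrArg Subtype.val (Submodule.projectionOnto_apply_left hc ⟨x, hx⟩)
  · have h1 : x ∈ W ⊔ W' := by rw [codisjoint_iff.1 hc.codisjoint]; trivial
    obtain ⟨y, hy, z, hz, rfl⟩ := Submodule.mem_sup.1 h1
    have h2 : ∀ y (hy : y ∈ W), (W.subtype ∘ₗ Submodule.projectionOnto W W' hc) y = y := by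
      intro y hy
      exact congrArg Subtype.val (Submodule.projectionOnto_apply_left hc ⟨y, hy⟩)
    have h3 : ∀ z (hz : z ∈ W'), (W.subtype ∘ₗ Submodule.projectionOnto W W' hc) z = 0 := by
      intro z hz
      exact congrArg Subtype.val (Submodule.projectionOnto_apply_right hc ⟨z, hz⟩)
    rw [map_add, map_add, map_add, h2 _ hy, h3 _ hz, h2 _ (hW g y hy), h3 _ (hW' g z hz), add_zero,
      add_zero]

/-- a subspace with an equivariant projection has a stable complement -/
lemma compl_of_proj {G : Type} {φ : G → Module.End Ω V} {W : Submodule Ω V}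
    {P : Module.End Ω V} (h1 : ∀ x, P x ∈ W) (h2 : ∀ x ∈ W, P x = x)
    (h3 : ∀ g x, P (φ g x) = φ g (P x)) :
    ∃ W' : Submodule Ω V, (∀ g, ∀ x ∈ W', φ g x ∈ W') ∧ IsCompl W W' := by
  refine ⟨LinearMap.ker P, fun g x hx => ?_, ?_⟩
  · rw [LinearMap.mem_ker] at hx ⊢
    rw [h3, hx, map_zero]
  · constructor
    · rw [Submodule.disjoint_def]
      intro x hx hx'
      rw [LinearMap.mem_ker] at hx'
      rw [← h2 x hx, hx']
    · rw [codisjoint_iff, eq_top_iff]
      intro x _
      refine Submodule.mem_sup.2 ⟨P x, h1 x, x - P x, ?_, by abel⟩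
      rw [LinearMap.mem_ker, map_sub, h2 _ (h1 x), sub_self]

/-- A representation is semisimple if its restriction to a subgroup of finite index is. -/
theorem semi_of_finiteIndex [CharZero Ω] {G : Type} [Group G] (φ : G →* Module.End Ω V)
    (U : Subgroup G) [U.FiniteIndex] (hU : Semi fun u : U => φ u) : Semi fun g => φ g := by
  classical
  intro W hW
  obtain ⟨P, hP1, hP2, hP3⟩ := exists_proj hU (W := W) (fun g x hx => hW g x hx)
  have hinv : ∀ g x, φ g (φ g⁻¹ x) = x := by
    intro g x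
    rw [← Module.End.mul_apply, ← map_mul, mul_inv_cancel, map_one]
    rfl
  set Q : G → Module.End Ω V := fun g => φ g * P * φ g⁻¹ with hQ
  have hQu : ∀ g, ∀ u ∈ U, Q (g * u) = Q g := by
    intro g u hu
    refine LinearMap.ext fun x => ?_
    have h1 : P (φ u (φ (g * u)⁻¹ x)) = φ u (P (φ (g * u)⁻¹ x)) := hP3 ⟨u, hu⟩ _
    have h2 : φ u (φ (g * u)⁻¹ x) = φ g⁻¹ x := by
      rw [← Module.End.mul_apply, ← map_mul, mul_inv_rev, ← mul_assoc, mul_inv_cancel, one_mul]
    change φ (g * u) (P (φ (g * u)⁻¹ x)) = φ g (P (φ g⁻¹ x))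
    rw [map_mul, Module.End.mul_apply, ← h1, h2]
  have : Fintype (G ⧸ U) := Fintype.ofFinite _
  have hout : ∀ g : G, Q ((g : G ⧸ U).out) = Q g := by
    intro g
    obtain ⟨u, hu⟩ := QuotientGroup.mk_out_eq_mul U g
    rw [hu]
    exact hQu g u u.2
  set n : ℕ := Fintype.card (G ⧸ U) with hn
  have hn0 : (n : Ω) ≠ 0 := by
    rw [hn]
    exact_mod_cast Fintype.card_ne_zero
  set R : Module.End Ω V := (n : Ω)⁻¹ • ∑ q : G ⧸ U, Q q.out with hR
  have hRx : ∀ x, R x = (n : Ω)⁻¹ • ∑ q : G ⧸ U, Q q.out x := by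
    intro x
    rw [hR, LinearMap.smul_apply, LinearMap.sum_apply]
  refine compl_of_proj (P := R) ?_ ?_ ?_
  · intro x
    rw [hRx]
    exact W.smul_mem _ (W.sum_mem fun q _ => hW _ _ (hP1 _))
  · intro x hx
    rw [hRx]
    have h1 : ∀ q : G ⧸ U, Q q.out x = x := by
      intro q
      change φ q.out (P (φ q.out⁻¹ x)) = x
      rw [hP2 _ (hW _ _ hx), hinv]
    rw [Finset.sum_congr rfl fun q _ => h1 q, Finset.sum_const, Finset.card_univ, ← hn,
      ← Nat.cast_smul_eq_nsmul Ω, smul_smul, inv_mul_cancel₀ hn0, one_smul]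
  · intro g x
    rw [hRx, hRx, map_smul, map_sum]
    congr 1
    have h1 : ∀ q : G ⧸ U, φ g (Q q.out x) = Q ((g • q : G ⧸ U).out) (φ g x) := by
      intro q
      obtain ⟨h, rfl⟩ := QuotientGroup.mk_surjective q
      have h2 : Q ((g • (h : G ⧸ U) : G ⧸ U).out) = Q (g * h) := hout (g * h)
      rw [h2, hout]
      change φ g (φ h (P (φ h⁻¹ x))) = φ (g * h) (P (φ (g * h)⁻¹ (φ g x)))
      have h3 : φ (g * h)⁻¹ (φ g x) = φ h⁻¹ x := by
        rw [← Module.End.mul_apply, ← map_mul, mul_inv_rev, mul_assoc, inv_mul_cancel, mul_one]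
      rw [h3, map_mul, Module.End.mul_apply]
    rw [Finset.sum_congr rfl fun q _ => h1 q]
    exact (Equiv.sum_comp (MulAction.toPerm g) fun q : G ⧸ U => Q q.out (φ g x)).symm

/-- the contraction does not depend on the basis -/
lemma contr {κ : Type} [Fintype κ] (b b' : Basis κ Ω V)
    (β : Module.Dual Ω V →ₗ[Ω] V →ₗ[Ω] V) :
    ∑ j, β (b.coord j) (b j) = ∑ j, β (b'.coord j) (b' j) := by
  classical
  have h1 : ∀ j, β (b'.coord j) (b' j) = ∑ k, b.coord k (b' j) • β (b'.coord j) (b k) := by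
    intro j
    conv_lhs => rw [← b.sum_repr (b' j)]
    rw [map_sum]
    refine Finset.sum_congr rfl fun k _ => ?_
    rw [map_smul]
    rfl
  rw [Finset.sum_congr rfl fun j _ => h1 j, Finset.sum_comm]
  refine Finset.sum_congr rfl fun k _ => ?_
  have h2 : b.coord k = ∑ j, b.coord k (b' j) • b'.coord j :=
    (b'.sum_dual_apply_smul_coord (b.coord k)).symm
  conv_lhs => rw [h2]
  rw [map_sum, LinearMap.sum_apply]
  refine Finset.sum_congr rfl fun j _ => ?_
  rw [map_smul, LinearMap.smul_apply]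

/-- A representation is semisimple if its space of endomorphisms is. -/
theorem semi_of_end [CharZero Ω] [FiniteDimensional Ω V] {G : Type} (φ : G → (V ≃ₗ[Ω] V))
    (h : Semi fun g => ((LinearEquiv.arrowCongr (φ g) (φ g)).toLinearMap :
      Module.End Ω (Module.End Ω V))) : Semi fun g => (φ g).toLinearMap := by
  classical
  intro W hW
  rcases subsingleton_or_nontrivial V with hs | hs
  · refine ⟨⊤, fun _ _ _ => trivial, ?_⟩
    constructor
    · rw [Submodule.disjoint_def]
      exact fun x _ _ => Subsingleton.elim _ _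
    · rw [codisjoint_iff, sup_top_eq]
  have hW' : ∀ g, ∀ x ∈ W, (φ g).symm x ∈ W := by
    intro g
    have h1 : W.map (φ g).toLinearMap = W := by
      refine Submodule.eq_of_le_of_finrank_eq ?_ ?_
      · rintro _ ⟨x, hx, rfl⟩
        exact hW g x hx
      · exact (φ g).finrank_map_eq W
    intro x hx
    rw [← h1] at hx
    obtain ⟨y, hy, rfl⟩ := hx
    change (φ g).symm (φ g y) ∈ W
    rw [LinearEquiv.symm_apply_apply]
    exact hy
  set M : Submodule Ω (Module.End Ω V) :=
    { carrier := {f | ∀ x, f x ∈ W}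
      add_mem' := fun hf hg x => W.add_mem (hf x) (hg x)
      zero_mem' := fun x => W.zero_mem
      smul_mem' := fun r f hf x => W.smul_mem r (hf x) } with hM
  obtain ⟨P, hP1, hP2, hP3⟩ := exists_proj h (W := M) (fun g f hf x => hW g _ (hf _))
  set b := Module.finBasis Ω V with hb
  set n : ℕ := finrank Ω V with hn
  have hn0 : (n : Ω) ≠ 0 := by
    have := Module.finrank_pos (R := Ω) (M := V)
    exact_mod_cast this.ne'
  set R : Module.End Ω V := (n : Ω)⁻¹ • ∑ j, (LinearMap.applyₗ (b j)) ∘ₗ P ∘ₗ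
    (LinearMap.smulRightₗ (b.coord j) : V →ₗ[Ω] Module.End Ω V) with hR
  have hRx : ∀ x, R x = (n : Ω)⁻¹ • ∑ j, P ((b.coord j).smulRight x) (b j) := by
    intro x
    rw [hR, LinearMap.smul_apply, LinearMap.sum_apply]
    rfl
  refine compl_of_proj (P := R) ?_ ?_ ?_
  · intro x
    rw [hRx]
    exact W.smul_mem _ (W.sum_mem fun j _ => hP1 _ _)
  · intro x hx
    rw [hRx]
    have h1 : ∀ j, P ((b.coord j).smulRight x) (b j) = x := by
      intro j
      rw [hP2 _ (fun y => W.smul_mem _ hx), LinearMap.smulRight_apply, b.coord_apply,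
        Basis.repr_self, Finsupp.single_eq_same, one_smul]
    rw [Finset.sum_congr rfl fun q _ => h1 q, Finset.sum_const, Finset.card_univ, Fintype.card_fin,
      ← Nat.cast_smul_eq_nsmul Ω, smul_smul, inv_mul_cancel₀ hn0, one_smul]
  · intro g x
    rw [hRx, hRx, map_smul]
    congr 1
    let β : Module.Dual Ω V →ₗ[Ω] V →ₗ[Ω] V :=
      P ∘ₗ (LinearMap.smulRightₗ (R := Ω) (M₂ := V) (M := V)).flip (φ g x)
    have h1 := contr b (b.map (φ g)) β
    have h2 : ∀ j, β (b.coord j) (b j) = P ((b.coord j).smulRight (φ g x)) (b j) := fun j => rfl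
    have h3 : ∀ j, β ((b.map (φ g)).coord j) ((b.map (φ g)) j) =
        φ g (P ((b.coord j).smulRight x) (b j)) := by
      intro j
      have h4 : ((b.map (φ g)).coord j).smulRight (φ g x) =
          LinearEquiv.arrowCongr (φ g) (φ g) ((b.coord j).smulRight x) := by
        refine LinearMap.ext fun y => ?_
        change (b.map (φ g)).coord j y • φ g x = φ g (b.coord j ((φ g).symm y) • x)
        rw [map_smul]
        rfl
      change P (((b.map (φ g)).coord j).smulRight (φ g x)) ((b.map (φ g)) j) = _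
      rw [h4]
      have h5 := hP3 g ((b.coord j).smulRight x)
      change P (LinearEquiv.arrowCongr (φ g) (φ g) ((b.coord j).smulRight x)) =
        LinearEquiv.arrowCongr (φ g) (φ g) (P ((b.coord j).smulRight x)) at h5
      rw [h5, Basis.map_apply]
      change φ g (P ((b.coord j).smulRight x) ((φ g).symm (φ g (b j)))) = _
      rw [LinearEquiv.symm_apply_apply]
    rw [Finset.sum_congr rfl fun j _ => h2 j, Finset.sum_congr rfl fun j _ => h3 j] at h1
    change ∑ j, P ((b.coord j).smulRight (φ g x)) (b j) = φ g (∑ j, P ((b.coord j).smulRight x) (b j))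
    rw [h1, map_sum]

end

end Pool.Agent.Run7.h261.MT
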