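import Pool.Agent.Run7.h261.MT.MTC
import Pool.Agent.Run7.h261.MT.Sem2

/-!
# Semisimplicity of the Galois action on tensor constructions
-/

set_option autoImplicit false
set_option linter.unusedSectionVars false

namespace Pool.Agent.Run7.h261.MT

open Module Module.End NumberField IsDedekindDomain
open Pool.Agent.W401.Cheb Pool.Agent.N184.HK

variable {K : Type} [Field K] [NumberField K] {Ω : Type} [Field Ω] [CharZero Ω] [IsAlgClosed Ω]
  [TopologicalSpace Ω] {X : HKVariety K Ω}

lemma isSemi_iff {c : Twist X} {e : Expr} {U : Subgroup (GK K)} :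
    IsSemi c e U ↔ Semi fun u : U => en ((ev c e).φ u) := Iff.rfl

/-- Open subgroups have finite index. -/
lemma finiteIndex_of_isOpen {U : Subgroup (GK K)} (hU : IsOpen (U : Set (GK K))) :
    U.FiniteIndex := by
  have : Finite (GK K ⧸ U) := Subgroup.quotient_finite_of_isOpen U hU
  exact Subgroup.finiteIndex_of_finite_quotient

lemma IsGood.semi_top {A : Rep X} {w : ℤ} {B : ℕ} (hA : IsGood A w B) {U : Subgroup (GK K)}
    (hU : IsOpen (U : Set (GK K))) (h : Semi fun u : U => en (A.φ u)) :
    Semi fun g => en (A.φ g) := by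
  have := finiteIndex_of_isOpen hU
  let φ : GK K →* Module.End Ω A.V :=
    { toFun := fun g => en (A.φ g)
      map_one' := LinearMap.ext fun x => hA.one x
      map_mul' := fun a b => LinearMap.ext fun x => by
        change A.φ (a * b) x = A.φ a (A.φ b x)
        rw [hA.mul]
        rfl }
  exact semi_of_finiteIndex φ U h

variable [IsTopologicalRing Ω] [T2Space Ω]

/-- **Semisimplicity**: if the tensor constructions with `H²` are semisimple over all finite extensions of
`K`, then all tensor constructions with the cohomology of `X` are semisimple. -/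
theorem gal_semi (D : HodgeData X) (c : Twist X) (hc : Rigid c)
    (hV : ∀ e : Expr, e.le X.d → Even e.wt → D.InTwo c e)
    (hS : ∀ e : Expr, e.two → ∀ U : Subgroup (GK K), IsOpen (U : Set (GK K)) → IsSemi c e U)
    {e : Expr} (he : e.le X.d) : StableCompl (ev c e).φ := by
  -- even weight
  have heven : ∀ e : Expr, e.le X.d → Even e.wt → Semi fun g => en ((ev c e).φ g) := by
    intro e he hw
    obtain ⟨n, f, ι, hf, hrm, hinj⟩ := hV e he hw
    have hU : ∀ k, ∃ U : Subgroup (GK K), IsOpen (U : Set (GK K)) ∧
        ∀ σ ∈ U, ∀ x, ι k ((ev c e).φ σ x) = (ev c (f k)).φ σ (ι k x) := by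
      intro k
      obtain ⟨U, hU, h⟩ := equi_open c hc he ((hf k).1.le X.two_le) (hf k).2
      exact ⟨U, hU, h (ι k) (hrm k).2⟩
    choose U hU hUι using hU
    have hop : IsOpen ((⨅ k, U k : Subgroup (GK K)) : Set (GK K)) := by
      rw [Subgroup.coe_iInf]
      exact isOpen_iInter_of_finite fun k => hU k
    refine (good_ev c e he).semi_top hop ?_
    refine semi_of_inj (fun k => isSemi_iff.1 (hS (f k) (hf k).1 _ hop)) ι ?_ hinj
    intro k g x
    exact hUι k g ((Subgroup.mem_iInf.1 g.2) k) x
  have hle : (Expr.hom e e).le X.d := ⟨he, he⟩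
  have h1 := heven (Expr.hom e e) hle ⟨0, by change e.wt - e.wt = 0 + 0; omega⟩
  exact semi_of_end (fun u => (ev c e).φ u) h1

end Pool.Agent.Run7.h261.MT
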