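import Pool.Agent.Run7.h261.MT.Uni

/-!
# The invariants of `so(H²)` are Tate classes
-/

set_option autoImplicit false
set_option linter.unusedSectionVars false

namespace Pool.Agent.Run7.h261.MT

open Module Module.End NumberField IsDedekindDomain Polynomial
open Pool.Agent.W401.Cheb Pool.Agent.N184.HK
open scoped Classical

variable {K : Type} [Field K] [NumberField K] {Ω : Type} [Field Ω] [TopologicalSpace Ω]
  {X : HKVariety K Ω}

section alg

variable [CharZero Ω] [IsAlgClosed Ω] {A : Rep X} {w : ℤ} {B : ℕ}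

lemma IsGood.one (hA : IsGood A w B) (x : A.V) : A.φ 1 x = x :=
  P_OPEN.phi_one hA.mul x

lemma IsGood.inv_apply (hA : IsGood A w B) (σ : GK K) (x : A.V) :
    (A.φ σ).symm x = A.φ σ⁻¹ x :=
  P_OPEN.phi_inv hA.mul σ x

/-- The elements which are killed by the Lie algebra `so(H²)`. -/
def Rep.inv (A : Rep X) : Submodule Ω A.V where
  carrier := {x | ∀ T, Skew X.E.X.q T → A.ρ T x = 0}
  add_mem' := fun hx hy T hT => by rw [map_add, hx T hT, hy T hT, add_zero]
  zero_mem' := fun T _ => map_zero _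
  smul_mem' := fun r x hx T hT => by rw [map_smul, hx T hT, smul_zero]

/-- The Galois action is compatible with the action of `so(H²)`. -/
lemma IsGood.conj (hA : IsGood A w B) (σ : GK K) {T : Module.End Ω (X.E.X.H 2)}
    (hT : Skew X.E.X.q T) : ∃ T' : Module.End Ω (X.E.X.H 2), Skew X.E.X.q T' ∧
      ∀ x, A.ρ T (A.φ σ x) = A.φ σ (A.ρ T' x) := by
  set F := X.E.F σ with hF
  set T' : Module.End Ω (X.E.X.H 2) := (F.φ 2).symm.conj T with hT'
  have h5 : ∀ x, F.φ 2 (T' x) = T (F.φ 2 x) := by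
    intro x
    simp [hT', LinearEquiv.conj_apply]
  refine ⟨T', ?_, ?_⟩
  · intro x y
    have h3 : X.E.X.q (F.φ 2 (T' x)) (F.φ 2 y) = F.μ * X.E.X.q (T' x) y := F.similar _ _
    have h4 : X.E.X.q (F.φ 2 x) (F.φ 2 (T' y)) = F.μ * X.E.X.q x (T' y) := F.similar _ _
    have h6 := hT (F.φ 2 x) (F.φ 2 y)
    rw [← h5, ← h5, h3, h4, ← mul_add] at h6
    exact (mul_eq_zero.1 h6).resolve_left F.μ_ne
  · intro x
    have h1 := hA.equi σ T' x
    have h2 : (F.φ 2).toLinearMap ∘ₗ T' ∘ₗ (F.φ 2).symm.toLinearMap = T := by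
      refine LinearMap.ext fun y => ?_
      change F.φ 2 (T' ((F.φ 2).symm y)) = T y
      rw [h5, LinearEquiv.apply_symm_apply]
    rw [h1]
    exact congrArg (fun S => A.ρ S (A.φ σ x)) h2.symm

lemma IsGood.stab (hA : IsGood A w B) (σ : GK K) {x : A.V} (hx : x ∈ A.inv) : A.φ σ x ∈ A.inv := by
  intro T hT
  obtain ⟨T', hT', h⟩ := hA.conj σ hT
  rw [h, hx T' hT', map_zero]

/-- The eigenvalues of the good Frobenius elements on the invariants of `so(H²)`. -/
lemma good_inv_root (hA : IsGood A w B) {m : ℤ} (hm : w = 2 * m) {v : HeightOneSpectrum (𝓞 K)}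
    (hv : v ∉ X.bad) (hp : (Ideal.absNorm v.asIdeal).Prime) {σ : GK K} (hσ : IsFrob v σ⁻¹)
    {a : A.V} (ha : a ∈ A.inv) (ha0 : a ≠ 0) {t : Ω} (hat : A.φ σ a = t • a) :
    t ^ (2 * B).factorial = ((Ideal.absNorm v.asIdeal : Ω) ^ m) ^ (2 * B).factorial := by
  obtain ⟨j⟩ : Nonempty (QQ →+* Ω) := ⟨(IsAlgClosed.lift : QQ →ₐ[ℚ] Ω).toRingHom⟩
  have hgen : a ∈ (en (A.φ σ)).maxGenEigenspace t := by
    rw [Module.End.mem_maxGenEigenspace]
    refine ⟨1, ?_⟩
    rw [pow_one, LinearMap.sub_apply, LinearMap.smul_apply]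
    change A.φ σ a - t • a = 0
    rw [hat, sub_self]
  have ht : t ∈ (en (A.φ σ)).charpoly.roots := ne_bot_iff.1 fun h => ha0 (by
    rw [h, Submodule.mem_bot] at hgen; exact hgen)
  obtain ⟨y, rfl, hy⟩ := hA.weil v hv hp σ hσ j t ht
  rw [hm] at hy
  have hval : ∀ ι : QQ →+* (X.crys v hv hp).C, ((X.crys v hv hp).val (ι y)).untopD 0 = m := by
    intro ι
    set W := WI j ι (X.crys v hv hp).val with hW
    have hskew : Skew X.E.X.q ((X.E.F σ).S2 W) :=
      skew_S2 (F := X.E.F σ) (W := W) (U_frob X hv hσ j ι _ X.two_le)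
    have h1 := hA.nil v hv hp σ hσ j ι
    rw [← hW] at h1
    have h2 : (fop (en (A.φ σ)) W.k - ((w / 2 : ℚ) : Ω) • (1 : Module.End Ω A.V) -
        A.ρ ((X.E.F σ).S2 W)) a = (W.k (j y) - ((w / 2 : ℚ) : Ω)) • a := by
      rw [LinearMap.sub_apply, LinearMap.sub_apply, fop_apply _ hgen, ha _ hskew, sub_zero,
        sub_smul]
      rfl
    obtain ⟨n, hn⟩ := h1
    have h3 : ∀ n : ℕ, ((fop (en (A.φ σ)) W.k - ((w / 2 : ℚ) : Ω) • (1 : Module.End Ω A.V) -
        A.ρ ((X.E.F σ).S2 W)) ^ n) a = (W.k (j y) - ((w / 2 : ℚ) : Ω)) ^ n • a := by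
      intro n
      induction n with
      | zero => simp
      | succ n ih =>
        rw [_root_.pow_succ', Module.End.mul_apply, ih, map_smul, h2, smul_smul,
          _root_.pow_succ]
    have h4 := h3 n
    rw [hn, LinearMap.zero_apply] at h4
    have h5 := (smul_eq_zero.1 h4.symm).resolve_right ha0
    have h6 := sub_eq_zero.1 (eq_zero_of_pow_eq_zero h5)
    rw [Wt.k] at h6
    have h7 : W.w (j y) = (w / 2 : ℚ) := by exact_mod_cast h6
    rw [hW, WI_w, hm] at h7
    rw [h7]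
    push_cast
    ring
  have h8 := hy.root hp (X.crys v hv hp).val (X.crys v hv hp).norm hval
  have h9 := congrArg j h8
  rw [map_pow, map_pow, map_zpow₀, map_natCast] at h9
  exact h9

end alg

section tw

variable {A : Rep X} (c : Twist X)

/-- The Galois action on `A(m)`. -/
noncomputable def Rep.tw (c : Twist X) (A : Rep X) (m : ℤ) (σ : GK K) : A.V ≃ₗ[Ω] A.V :=
  (A.φ σ).trans (scal (c.pow (-m) σ) (c.pow_ne (-m) σ))

lemma tw_eq (m : ℤ) (σ : GK K) (x : A.V) : A.tw c m σ x = A.act c m σ x := rfl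

lemma tw_apply (m : ℤ) (σ : GK K) (x : A.V) : A.tw c m σ x = c.pow (-m) σ • A.φ σ x := rfl

lemma chi_ne (σ : GK K) : (c.χ σ : Ω) ≠ 0 := Units.ne_zero _

end tw

variable [CharZero Ω] [IsAlgClosed Ω] [IsTopologicalRing Ω] [T2Space Ω]

section main

variable (c : Twist X) {A : Rep X} {w : ℤ} {B : ℕ}

omit [T2Space Ω] in
lemma cts_tw (hA : IsGood A w B) (m : ℤ) : Cts fun σ => en (A.tw c m σ) := by
  intro L
  have h1 : (fun σ => L (en (A.tw c m σ))) =
      fun σ => c.pow (-m) σ * L (en (A.φ σ)) := by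
    funext σ
    rw [← smul_eq_mul, ← map_smul]
    rfl
  rw [h1]
  exact (cont_zpow c (-m)).mul (hA.cont L)

omit [IsTopologicalRing Ω] [T2Space Ω] in
lemma tw_mul (hA : IsGood A w B) (m : ℤ) (σ τ : GK K) (x : A.V) :
    A.tw c m (σ * τ) x = A.tw c m σ (A.tw c m τ x) := by
  rw [tw_apply, tw_apply, tw_apply, hA.mul, pow_mul, map_smul, mul_smul]
  rfl

omit [IsTopologicalRing Ω] [T2Space Ω] in
lemma tw_one (hA : IsGood A w B) (m : ℤ) (x : A.V) : A.tw c m 1 x = x := by
  rw [tw_apply, Twist.pow, map_one, Units.val_one, one_zpow, one_smul, hA.one]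

omit [IsTopologicalRing Ω] [T2Space Ω] in
lemma tw_stab (hA : IsGood A w B) (m : ℤ) (σ : GK K) {x : A.V} (hx : x ∈ A.inv) :
    A.tw c m σ x ∈ A.inv := by
  rw [tw_apply]
  exact A.inv.smul_mem _ (hA.stab σ hx)

omit [T2Space Ω] in
lemma cts_tw_quasi (hA : IsGood A w B) (m : ℤ) (M n : ℕ) :
    Cts fun σ => ((en (A.tw c m σ)) ^ M - 1) ^ n := by
  have hpow : ∀ (g : GK K → Module.End Ω A.V), Cts g → ∀ n : ℕ, Cts fun σ => (g σ) ^ n := by
    intro g hg n
    induction n with
    | zero =>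
      intro L
      refine (continuous_const (y := L 1)).congr fun σ => ?_
      exact congrArg L (_root_.pow_zero (g σ)).symm
    | succ n ih =>
      have h := (t_cts Ω A.V (GK K) _ _ ih hg).1
      have h2 : (fun σ => g σ ^ (n + 1)) = fun σ => g σ ^ n * g σ := by
        funext σ
        rw [_root_.pow_succ]
      rw [h2]
      exact h
  refine hpow _ ?_ n
  intro L
  have h1 : (fun σ => L ((en (A.tw c m σ)) ^ M - 1)) =
      fun σ => L ((en (A.tw c m σ)) ^ M) - L 1 := by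
    funext σ
    rw [map_sub]
  rw [h1]
  exact (hpow _ (cts_tw c hA m) M L).sub continuous_const

/-- The Galois group acts quasi-unipotently on the invariants of `so(H²)`. -/
lemma inv_quasi (hA : IsGood A w B) {m : ℤ} (hm : w = 2 * m) {x : A.V} (hx : x ∈ A.inv)
    (σ : GK K) :
    (((en (A.tw c m σ)) ^ (2 * B).factorial - 1) ^ (finrank Ω A.inv)) x = 0 := by
  have key : ∀ L : Module.Dual Ω A.V, ∀ σ ∈ (Set.univ : Set (GK K)),
      L ((((en (A.tw c m σ)) ^ (2 * B).factorial - 1) ^ (finrank Ω A.inv)) x) = 0 := by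
    intro L
    refine dense_zero X isOpen_univ (cts_tw_quasi c hA m _ _
      (L ∘ₗ (LinearMap.applyₗ x : Module.End Ω A.V →ₗ[Ω] A.V))) fun v hv hp σ _ hσ => ?_
    have hst : ∀ x ∈ A.inv, (en (A.tw c m σ)) x ∈ A.inv := fun x hx => tw_stab c hA m σ hx
    have h1 := t_qu Ω A.inv ((en (A.tw c m σ)).restrict hst) (2 * B).factorial (by
      intro t ht
      obtain ⟨y, hy⟩ := ht.exists_hasEigenvector
      have hy1 := hy.apply_eq_smul
      have hy2 : A.tw c m σ (y : A.V) = t • (y : A.V) := congrArg Subtype.val hy1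
      have hy0 : (y : A.V) ≠ 0 := fun h => hy.2 (Subtype.ext h)
      have hχ := c.frob v hv σ hσ
      have hχ0 := chi_ne c σ
      rw [tw_apply, Twist.pow] at hy2
      have hy3 : A.φ σ (y : A.V) = ((c.χ σ : Ω) ^ m * t) • (y : A.V) := by
        rw [mul_smul, ← hy2, smul_smul, ← zpow_add₀ hχ0, add_neg_cancel, zpow_zero, one_smul]
      have h2 := good_inv_root hA hm hv hp hσ y.2 hy0 hy3
      rw [mul_pow, hχ] at h2
      have h3 : ((Ideal.absNorm v.asIdeal : Ω) ^ m) ^ (2 * B).factorial ≠ 0 := by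
        rw [← hχ]
        exact pow_ne_zero _ (zpow_ne_zero _ hχ0)
      exact mul_left_cancel₀ h3 (h2.trans (mul_one _).symm))
    have h2 := restrict_quasi (p := A.inv) (f := (en (A.tw c m σ)).restrict hst)
      (g := en (A.tw c m σ)) (fun x => rfl) (2 * B).factorial (finrank Ω A.inv) ⟨x, hx⟩
    rw [h1] at h2
    change L ((((en (A.tw c m σ)) ^ (2 * B).factorial - 1) ^ (finrank Ω A.inv)) x) = 0
    rw [← h2]
    exact map_zero L
  have h3 := fun L : Module.Dual Ω A.V => key L σ (Set.mem_univ σ)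
  exact (Module.forall_dual_apply_eq_zero_iff Ω _).1 h3

/-- An open subgroup of the Galois group acts unipotently on the invariants of `so(H²)`. -/
lemma inv_unip (hA : IsGood A w B) {m : ℤ} (hm : w = 2 * m) :
    ∃ U : Subgroup (GK K), IsOpen (U : Set (GK K)) ∧ ∀ σ ∈ U, ∀ x ∈ A.inv,
      ((en (A.tw c m σ) - 1) ^ finrank Ω A.inv) x = 0 := by
  have hst : ∀ σ, ∀ x ∈ A.inv, (en (A.tw c m σ)) x ∈ A.inv :=
    fun σ x hx => tw_stab c hA m σ hx
  obtain ⟨P, hP⟩ : ∃ P : A.V →ₗ[Ω] A.inv, ∀ x : A.inv, P x = x := by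
    obtain ⟨P, hP⟩ := LinearMap.exists_leftInverse_of_injective A.inv.subtype
      (Submodule.ker_subtype _)
    exact ⟨P, fun x => congrArg (fun f => f x) hP⟩
  obtain ⟨O, hO, h1, h2⟩ := near_one (g := fun σ => (en (A.tw c m σ)).restrict (hst σ))
    (M := (2 * B).factorial) (by
      intro L
      have h3 := cts_tw c hA m (L ∘ₗ (LinearMap.lcomp Ω A.inv A.inv.subtype) ∘ₗ
        (LinearMap.llcomp Ω A.V A.V A.inv P))
      refine h3.congr fun σ => ?_
      change L _ = L _
      congr 1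
      refine LinearMap.ext fun x => ?_
      change P (A.tw c m σ x) = _
      exact hP ⟨_, hst σ x x.2⟩) (by
      refine LinearMap.ext fun x => Subtype.ext ?_
      exact tw_one c hA m x) (Nat.factorial_ne_zero _) (by
      intro σ t ht
      obtain ⟨y, hy⟩ := ht.exists_hasEigenvector
      have hy1 := hy.apply_eq_smul
      have hy2 : en (A.tw c m σ) (y : A.V) = t • (y : A.V) := congrArg Subtype.val hy1
      have hy0 : (y : A.V) ≠ 0 := fun h => hy.2 (Subtype.ext h)
      refine root_of_quasi (g := en (A.tw c m σ)) (m := finrank Ω A.inv) (a := (y : A.V)) hy0 ?_ ?_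
      · rw [Module.End.mem_maxGenEigenspace]
        refine ⟨1, ?_⟩
        rw [pow_one, LinearMap.sub_apply, hy2, LinearMap.smul_apply]
        exact sub_self _
      · rintro b ⟨k, rfl⟩
        refine inv_quasi c hA hm ?_ σ
        induction k with
        | zero => exact y.2
        | succ k ih =>
          rw [_root_.pow_succ', Module.End.mul_apply, LinearMap.sub_apply]
          exact Submodule.sub_mem _ (hst σ _ ih) (Submodule.smul_mem _ _ ih))
  obtain ⟨U, hU, hUO⟩ := open_sub hO h1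
  refine ⟨U, hU, fun σ hσ x hx => ?_⟩
  have h3 := h2 σ (hUO hσ)
  have h4 := restrict_quasi (p := A.inv) (f := (en (A.tw c m σ)).restrict (hst σ))
    (g := en (A.tw c m σ)) (fun x => rfl) 1 (finrank Ω A.inv) ⟨x, hx⟩
  rw [pow_one, pow_one] at h4
  change (((((en (A.tw c m σ)).restrict (hst σ) - 1) ^ finrank Ω A.inv) ⟨x, hx⟩ : A.inv) : A.V) =
    _ at h4
  rw [h3] at h4
  exact h4.symm

end main

/-- **Invariants of `so(H²)` are Tate classes**: if the weight of a tensor construction is even then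
an open subgroup of the Galois group fixes all invariants of `so(H²)` (after a Tate twist). -/
theorem inv_tate (c : Twist X) (hc : Rigid c) {e : Expr} (he : e.le X.d) {m : ℤ}
    (hm : e.wt = 2 * m) : ∃ U : Subgroup (GK K), IsOpen (U : Set (GK K)) ∧
      ∀ x ∈ (ev c e).inv, ∀ σ ∈ U, (ev c e).tw c m σ x = x := by
  have hA := good_ev c e he
  obtain ⟨U, hU, h1⟩ := inv_unip c hA hm
  refine ⟨U, hU, ?_⟩
  by_contra hcon
  push Not at hcon
  obtain ⟨x, hx, σ, hσ, hne⟩ := hcon
  let φ : U →* Module.End Ω (ev c e).V :=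
    { toFun := fun g => en ((ev c e).tw c m g)
      map_one' := LinearMap.ext fun x => tw_one c hA m x
      map_mul' := fun a b => LinearMap.ext fun x => tw_mul c hA m a b x }
  obtain ⟨y, hy, ⟨g, hg⟩, h2⟩ := unip_ext φ (ev c e).inv (fun g x hx => tw_stab c hA m g hx)
    (fun g x hx => h1 g g.2 x hx) hx ⟨⟨σ, hσ⟩, hne⟩
  exact hg (hc e he m hm U hU y (fun σ hσ τ hτ => h2 ⟨σ, hσ⟩ ⟨τ, hτ⟩) g g.2)

end Pool.Agent.Run7.h261.MT
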