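import Pool.Agent.Run7.h261.MT.Gal
import Pool.Agent.Run7.h261.MT.Diag

/-!
# Projective hyperkähler varieties over number fields and their realizations
-/

set_option autoImplicit false
set_option linter.unusedSectionVars false

namespace Pool.Agent.Run7.h261.MT

open Module Module.End NumberField IsDedekindDomain
open Pool.Agent.W401.Cheb Pool.Agent.N184.HK

section

variable {K : Type} [Field K] [NumberField K] {Ω : Type} [Field Ω] [CharZero Ω] [IsAlgClosed Ω]
  [TopologicalSpace Ω] {X : HKVariety K Ω}

/-- The Tate classes in the tensor construction `e`. -/
def TateSet (c : Twist X) (e : Expr) : Set (ev c e).V := {x | IsTate c e x}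

/-- The Hodge classes in the tensor construction `e`. -/
def HodgeData.HodgeSet (D : HodgeData X) (c : Twist X) (e : Expr) : Set (ev c e).V :=
  {x | D.IsHodge c e x}

/-- In the tensor construction `e` the Tate classes are the linear combinations of the Hodge
classes. -/
def HodgeData.TateIsHodge (D : HodgeData X) (c : Twist X) (e : Expr) : Prop :=
  TateSet c e = Submodule.span Ω (D.HodgeSet c e)

end

/-- A projective hyperkähler variety `X` over a number field `K`, of any deformation type, with its
`ℓ`-adic and rational cohomology. To the data of `HKVariety` (the `ℓ`-adic cohomology with the actions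
of the Galois group and of `so(H²)`, and the crystalline cohomology at the good places of degree one) we
add the cyclotomic character `c`, the rational cohomology with the Hodge operator `D`, and two known
facts:

* `rigid`: extensions of trivial representations by trivial representations inside of the twisted
  tensor constructions split over open subgroups (Faltings, Bloch-Kato, see `Rigid`);
* `weyl`: a tensor construction of even weight is contained in a finite direct sum of tensor
  constructions with `H²` and Tate twists, as a representation of `so(H²)` with a rational structure. In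
  fact the action of `so(H²)` on a tensor construction of even weight integrates to an action of the
  algebraic group `SO(H²(X, ℚ))` (Verbitsky), and finite-dimensional representations of this group over
  `ℚ` are contained in sums of tensor powers of `H²(X, ℚ)` (Weyl). -/
structure HKReal (K : Type) [Field K] [NumberField K] (Ω : Type) [Field Ω] [CharZero Ω]
    [TopologicalSpace Ω] where
  X : HKVariety K Ω
  c : Twist X
  D : HodgeData X
  rigid : Rigid c
  weyl : ∀ e : Expr, e.le X.d → Even e.wt → D.InTwo c e

/-- `HKReal` together with two theorems about `H²(X)`: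

* `andre`: the Mumford-Tate conjecture for `H²(X)`: in the tensor constructions with `H²` and Tate
  twists, of even weight, the Tate classes are the linear combinations of the Hodge classes (André);
* `faltings`: tensor constructions with `H²` and Tate twists are semisimple representations of the
  Galois groups of the finite extensions of `K` (Faltings and André). -/
structure HKMT (K : Type) [Field K] [NumberField K] (Ω : Type) [Field Ω] [CharZero Ω]
    [TopologicalSpace Ω] extends HKReal K Ω where
  andre : ∀ e : Expr, e.two → Even e.wt → D.TateIsHodge c e
  faltings : ∀ e : Expr, e.two → ∀ U : Subgroup (GK K), IsOpen (U : Set (GK K)) → IsSemi c e U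

section

variable {K : Type} [Field K] [NumberField K] {Ω : Type} [Field Ω] [CharZero Ω] [IsAlgClosed Ω]
  [TopologicalSpace Ω] [IsTopologicalRing Ω] [T2Space Ω]

/-- The Mumford-Tate conjecture. -/
theorem HKMT.mumfordTate (R : HKMT K Ω) {e : Expr} (he : e.le R.X.d) (hw : Even e.wt) :
    R.D.TateIsHodge R.c e :=
  mtc R.D R.c R.rigid R.weyl R.andre he hw

theorem HKMT.semisimple (R : HKMT K Ω) {e : Expr} (he : e.le R.X.d) :
    StableCompl (ev R.c e).φ :=
  gal_semi R.D R.c R.rigid R.weyl R.faltings he

/-- A rational class in the linear span of a rational space of rational classes belongs to this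
space. -/
lemma mem_of_span {V : Type} [AddCommGroup V] [Module Ω V] {L : Set V} (hL : IsForm (Ω := Ω) L)
    {C : Set V} (hC : C ⊆ L) (h0 : (0 : V) ∈ C) (hadd : ∀ x ∈ C, ∀ y ∈ C, x + y ∈ C)
    (hsmul : ∀ (r : ℚ), ∀ x ∈ C, (r : Ω) • x ∈ C) {x : V} (hx : x ∈ L)
    (h : x ∈ Submodule.span Ω C) : x ∈ C := by
  obtain ⟨κ, _, b, rfl⟩ := hL
  obtain ⟨lam, hlam⟩ : ∃ lam : Ω →ₗ[ℚ] ℚ, lam 1 = 1 := by
    obtain ⟨P, hP⟩ := LinearMap.exists_leftInverse_of_injective
      (LinearMap.toSpanSingleton ℚ Ω 1) (by
        rw [LinearMap.ker_eq_bot]
        intro a b hab
        have h1 : ((a : ℚ) : Ω) = ((b : ℚ) : Ω) := by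
          have := hab
          rw [LinearMap.toSpanSingleton_apply, LinearMap.toSpanSingleton_apply, Rat.smul_def,
            Rat.smul_def, mul_one, mul_one] at this
          exact this
        exact_mod_cast h1)
    refine ⟨P, ?_⟩
    have h1 := congrArg (fun f => f 1) hP
    have h2 : P (LinearMap.toSpanSingleton ℚ Ω 1 1) = 1 := h1
    rwa [LinearMap.toSpanSingleton_apply, one_smul] at h2
  have h6 : ∀ z ∈ Submodule.span Ω C, ∀ a : Ω, part b lam (a • z) ∈ C := by
    intro z hz
    induction hz using Submodule.span_induction with
    | mem z hz =>
      intro a
      rw [part_smul b lam a (hC hz)]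
      exact hsmul _ _ hz
    | zero => intro a; rw [smul_zero, part_zero]; exact h0
    | add y z _ _ h1 h2 => intro a; rw [smul_add, part_add]; exact hadd _ (h1 a) _ (h2 a)
    | smul c y _ h => intro a; rw [smul_smul]; exact h _
  have h7 := h6 x h 1
  rw [part_smul b lam 1 hx, hlam, Rat.cast_one, one_smul] at h7
  exact h7

end

end Pool.Agent.Run7.h261.MT
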