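import Pool.Agent.Run7.h261.MT.Inv
import Pool.Agent.Run7.h261.MT.Form

/-!
# The Mumford-Tate conjecture
-/

set_option autoImplicit false
set_option linter.unusedSectionVars false

namespace Pool.Agent.Run7.h261.MT

open Module Module.End NumberField IsDedekindDomain
open Pool.Agent.W401.Cheb Pool.Agent.N184.HK

variable {K : Type} [Field K] [NumberField K] {Ω : Type} [Field Ω] [CharZero Ω] [IsAlgClosed Ω]
  [TopologicalSpace Ω] {X : HKVariety K Ω}

/-- The rational cohomology `H^i(X(ℂ), ℚ)`, as a rational structure of the `ℓ`-adic cohomology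
(Artin's comparison theorem), and the Hodge operator `J` on `H²`, which acts as `(p - q) / 2` on
`H^{p,q}`. Here `Ω`, the algebraic closure of `ℚ_ℓ`, is identified with the field of complex numbers. The
operator `ρ i J` is the Hodge operator on `H^i` (Verbitsky). -/
structure HodgeData (X : HKVariety K Ω) where
  L : ∀ i, Set (X.E.X.H i)
  form : ∀ i, i ≤ X.d → IsForm (Ω := Ω) (L i)
  J : Module.End Ω (X.E.X.H 2)
  skew : Skew X.E.X.q J

/-- The linear maps which map `L` to `M`. -/
def ratHom {V W : Type} [AddCommGroup V] [Module Ω V] [AddCommGroup W] [Module Ω W] (L : Set V)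
    (M : Set W) : Set (V →ₗ[Ω] W) :=
  {f | ∀ x ∈ L, f x ∈ M}

/-- The rational numbers. -/
def ratNum (Ω : Type) [Field Ω] : Set Ω := {x | ∃ r : ℚ, x = (r : Ω)}

/-- The rational structures of the tensor constructions. -/
def HodgeData.rat (D : HodgeData X) (c : Twist X) : ∀ e : Expr, Set (ev c e).V
  | .H i => D.L i
  | .tate _ => ratNum Ω
  | .hom a b => ratHom (D.rat c a) (D.rat c b)

lemma HodgeData.rat_form (D : HodgeData X) (c : Twist X) :
    ∀ e : Expr, e.le X.d → IsForm (Ω := Ω) (D.rat c e)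
  | .H i, h => D.form i h
  | .tate _, _ => isForm_one
  | .hom a b, h => isForm_hom (D.rat_form c a h.1) (D.rat_form c b h.2)

/-- Hodge classes: rational elements of tensor constructions of even weight `2 m` which have the type
`(m, m)`, that is, which are killed by the Hodge operator. -/
def HodgeData.IsHodge (D : HodgeData X) (c : Twist X) (e : Expr) (x : (ev c e).V) : Prop :=
  Even e.wt ∧ x ∈ D.rat c e ∧ (ev c e).ρ D.J x = 0

/-- `ι` is a linear map from `e` to `f` which maps rational vectors to rational vectors and is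
compatible with the actions of `so(H²)`. -/
def HodgeData.RatMap (D : HodgeData X) (c : Twist X) (e f : Expr)
    (ι : (ev c e).V →ₗ[Ω] (ev c f).V) : Prop :=
  ι ∈ ratHom (D.rat c e) (D.rat c f) ∧ (ev c e).SoMap (ev c f) ι

/-- The tensor construction `e` is contained in a finite direct sum of tensor constructions with `H²` of
the same weight, as a representation of `so(H²)` with a rational structure. -/
def HodgeData.InTwo (D : HodgeData X) (c : Twist X) (e : Expr) : Prop :=
  ∃ (n : ℕ) (f : Fin n → Expr) (ι : ∀ k, (ev c e).V →ₗ[Ω] (ev c (f k)).V),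
    (∀ k, (f k).two ∧ (f k).wt = e.wt) ∧ (∀ k, D.RatMap c e (f k) (ι k)) ∧ JointInj ι

lemma Expr.two.le {d : ℕ} (hd : 2 ≤ d) : ∀ {e : Expr}, e.two → e.le d
  | .H _, h => by
    change _ = 2 at h
    change _ ≤ d
    omega
  | .tate _, _ => trivial
  | .hom _ _, h => ⟨Expr.two.le hd h.1, Expr.two.le hd h.2⟩

lemma even_wt {e : Expr} : Even e.wt ↔ ∃ m : ℤ, e.wt = 2 * m := by
  constructor
  · rintro ⟨m, hm⟩
    exact ⟨m, by omega⟩
  · rintro ⟨m, hm⟩
    exact ⟨m, by omega⟩

variable [IsTopologicalRing Ω] [T2Space Ω]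

/-- Maps which are compatible with `so(H²)` are compatible with an open subgroup of the Galois group. -/
theorem equi_open (c : Twist X) (hc : Rigid c) {e f : Expr} (he : e.le X.d) (hf : f.le X.d)
    (hw : f.wt = e.wt) : ∃ U : Subgroup (GK K), IsOpen (U : Set (GK K)) ∧
      ∀ ι : (ev c e).V →ₗ[Ω] (ev c f).V, (ev c e).SoMap (ev c f) ι →
        ∀ σ ∈ U, Commutes ι ((ev c e).φ σ) ((ev c f).φ σ) := by
  have hle : (Expr.hom e f).le X.d := ⟨he, hf⟩
  have hm : (Expr.hom e f).wt = 2 * 0 := by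
    change f.wt - e.wt = 2 * 0
    omega
  obtain ⟨U, hU, h⟩ := inv_tate c hc hle hm
  refine ⟨U, hU, fun ι hι σ hσ x => ?_⟩
  have h1 : ι ∈ (ev c (Expr.hom e f)).inv := by
    intro T hT
    refine LinearMap.ext fun x => ?_
    change (ev c f).ρ T (ι x) - ι ((ev c e).ρ T x) = 0
    rw [hι T hT, sub_self]
  have h2 := (tw_apply (A := ev c (Expr.hom e f)) c 0 σ ι).symm.trans (h ι h1 σ hσ)
  rw [Twist.pow, neg_zero, zpow_zero, one_smul] at h2
  have h3 : (ev c f).φ σ (ι (((ev c e).φ σ).symm ((ev c e).φ σ x))) = ι ((ev c e).φ σ x) :=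
    congrArg (fun g : (ev c e).V →ₗ[Ω] (ev c f).V => g ((ev c e).φ σ x)) h2
  rw [LinearEquiv.symm_apply_apply] at h3
  exact h3.symm

omit [IsTopologicalRing Ω] [T2Space Ω] in
lemma fixes_iff {c : Twist X} {A : Rep X} {m : ℤ} {U : Subgroup (GK K)} {x : A.V} :
    A.Fixes c m U x ↔ ∀ σ ∈ U, A.tw c m σ x = x := Iff.rfl

omit [IsTopologicalRing Ω] [T2Space Ω] in
/-- The Tate classes are a subspace. -/
lemma isTate_span (c : Twist X) (e : Expr) {S : Set (ev c e).V} (hS : ∀ x ∈ S, IsTate c e x)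
    {x : (ev c e).V} (hw : Even e.wt) (hx : x ∈ Submodule.span Ω S) : IsTate c e x := by
  obtain ⟨m, hm⟩ := even_wt.1 hw
  refine ⟨m, hm, ?_⟩
  induction hx using Submodule.span_induction with
  | mem x hx =>
    obtain ⟨m', hm', h⟩ := hS x hx
    have : m' = m := by omega
    subst this
    exact h
  | zero => exact ⟨⊤, isOpen_univ, fixes_iff.2 fun σ _ => map_zero _⟩
  | add x y _ _ h1 h2 =>
    obtain ⟨U, hU, hx⟩ := h1
    obtain ⟨U', hU', hy⟩ := h2
    rw [fixes_iff] at hx hy
    exact ⟨U ⊓ U', hU.inter hU', fixes_iff.2 fun σ hσ => by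
      rw [map_add, hx σ hσ.1, hy σ hσ.2]⟩
  | smul a x _ h =>
    obtain ⟨U, hU, hx⟩ := h
    rw [fixes_iff] at hx
    exact ⟨U, hU, fixes_iff.2 fun σ hσ => by rw [map_smul, hx σ hσ]⟩

/-- **The Mumford-Tate conjecture.** -/
theorem mtc (D : HodgeData X) (c : Twist X) (hc : Rigid c)
    (hV : ∀ e : Expr, e.le X.d → Even e.wt → D.InTwo c e)
    (hA : ∀ e : Expr, e.two → Even e.wt →
      {x | IsTate c e x} = (Submodule.span Ω {y | D.IsHodge c e y} : Set (ev c e).V))
    {e : Expr} (he : e.le X.d) (hw : Even e.wt) :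
    {x | IsTate c e x} = (Submodule.span Ω {y | D.IsHodge c e y} : Set (ev c e).V) := by
  obtain ⟨m, hm⟩ := even_wt.1 hw
  obtain ⟨n, f, ι, hf, hrm, hinj⟩ := hV e he hw
  have hrat : ∀ k, ∀ x ∈ D.rat c e, ι k x ∈ D.rat c (f k) := fun k => (hrm k).1
  have heq : ∀ k, (ev c e).SoMap (ev c (f k)) (ι k) := fun k => (hrm k).2
  have hU : ∀ k, ∃ U : Subgroup (GK K), IsOpen (U : Set (GK K)) ∧
      ∀ σ ∈ U, ∀ x, ι k ((ev c e).φ σ x) = (ev c (f k)).φ σ (ι k x) := by
    intro k
    obtain ⟨U, hU, h⟩ := equi_open c hc he ((hf k).1.le X.two_le) (hf k).2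
    exact ⟨U, hU, h (ι k) (heq k)⟩
  choose U hU hUι using hU
  have hfm : ∀ k, (f k).wt = 2 * m := fun k => (hf k).2.trans hm
  have hfe : ∀ k, Even (f k).wt := fun k => even_wt.2 ⟨m, hfm k⟩
  ext x
  constructor
  · rintro ⟨m', hm', U', hU', hx⟩
    have : m' = m := by omega
    subst this
    rw [fixes_iff] at hx
    have h1 : ∀ k, ι k x ∈ Submodule.span Ω
        {y | y ∈ D.rat c (f k) ∧ (ev c (f k)).ρ D.J y = 0} := by
      intro k
      have h2 : ι k x ∈ {x | IsTate c (f k) x} := by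
        refine ⟨m', hfm k, U' ⊓ U k, hU'.inter (hU k), fixes_iff.2 fun σ hσ => ?_⟩
        rw [tw_apply, ← hUι k σ hσ.2, ← map_smul, ← tw_apply, hx σ hσ.1]
      rw [hA (f k) (hf k).1 (hfe k)] at h2
      refine Submodule.span_mono ?_ h2
      exact fun y hy => hy.2
    have h2 := descent (D.rat_form c e he) (fun k => D.rat_form c (f k) ((hf k).1.le X.two_le)) ι
      hrat hinj ((ev c e).ρ D.J) (fun k => (ev c (f k)).ρ D.J) (fun k y => heq k D.J D.skew y) h1
    refine Submodule.span_mono ?_ h2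
    exact fun y hy => ⟨hw, hy⟩
  · intro hx
    refine isTate_span c _ ?_ hw hx
    rintro y ⟨-, hy, hJ⟩
    have h1 : ∀ k, ∃ V : Subgroup (GK K), IsOpen (V : Set (GK K)) ∧
        ∀ σ ∈ V, (ev c (f k)).tw c m σ (ι k y) = ι k y := by
      intro k
      have h2 : D.IsHodge c (f k) (ι k y) :=
        ⟨hfe k, hrat k y hy, by rw [← heq k _ D.skew, hJ, map_zero]⟩
      have h3 : ι k y ∈ (Submodule.span Ω {y | D.IsHodge c (f k) y} : Set (ev c (f k)).V) :=
        Submodule.subset_span h2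
      rw [← hA (f k) (hf k).1 (hfe k)] at h3
      obtain ⟨m', hm', V, hV, h3⟩ := h3
      have : m' = m := by have := hfm k; omega
      subst this
      exact ⟨V, hV, fixes_iff.1 h3⟩
    choose V hV' hVι using h1
    refine ⟨m, hm, ⨅ k, (U k ⊓ V k), ?_, fixes_iff.2 fun σ hσ => ?_⟩
    · rw [Subgroup.coe_iInf]
      exact isOpen_iInter_of_finite fun k => (hU k).inter (hV' k)
    · rw [← sub_eq_zero]
      refine hinj _ fun k => ?_
      have h4 : σ ∈ U k ⊓ V k := (Subgroup.mem_iInf.1 hσ) k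
      have h5 := hVι k σ h4.2
      rw [tw_apply] at h5
      rw [map_sub, tw_apply, map_smul, hUι k σ h4.1, h5, sub_self]

end Pool.Agent.Run7.h261.MT
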