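import Mathlib

/-!
# Semisimple families of operators
-/

set_option autoImplicit false
set_option linter.unusedSectionVars false

namespace Pool.Agent.Run7.h261.MT

open Module

section

variable {Ω : Type} [Field Ω] {G : Type}

/-- Every subspace which is stable under the operators `φ g` has a stable complement. -/
def Semi {V : Type} [AddCommGroup V] [Module Ω V] (φ : G → Module.End Ω V) : Prop :=
  ∀ W : Submodule Ω V, (∀ g, ∀ x ∈ W, φ g x ∈ W) →
    ∃ W' : Submodule Ω V, (∀ g, ∀ x ∈ W', φ g x ∈ W') ∧ IsCompl W W'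

/-- `V` as a module over the free algebra. -/
def AsMod {V : Type} [AddCommGroup V] [Module Ω V] (_ : G → Module.End Ω V) : Type := V

variable {V : Type} [AddCommGroup V] [Module Ω V] (φ : G → Module.End Ω V)

/-- the group structure -/
@[reducible] def asModGroup : AddCommGroup (AsMod φ) := inferInstanceAs (AddCommGroup V)

attribute [local instance] asModGroup

/-- the module structure over the free algebra -/
@[reducible] noncomputable def asModModule : Module (FreeAlgebra Ω G) (AsMod φ) :=
  Module.compHom V (FreeAlgebra.lift Ω φ).toRingHom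

attribute [local instance] asModModule

lemma asMod_smul (a : FreeAlgebra Ω G) (x : AsMod φ) :
    a • x = (FreeAlgebra.lift Ω φ a : Module.End Ω V) x := rfl

lemma lift_mem {W : Submodule Ω V} (hW : ∀ g, ∀ x ∈ W, φ g x ∈ W) (a : FreeAlgebra Ω G) :
    ∀ x ∈ W, (FreeAlgebra.lift Ω φ a : Module.End Ω V) x ∈ W := by
  induction a using FreeAlgebra.induction with
  | grade0 r =>
    intro x hx
    rw [AlgHom.commutes]
    exact W.smul_mem r hx
  | grade1 g =>
    intro x hx
    rw [FreeAlgebra.lift_ι_apply]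
    exact hW g x hx
  | mul a b ha hb =>
    intro x hx
    rw [map_mul, Module.End.mul_apply]
    exact ha _ (hb _ hx)
  | add a b ha hb =>
    intro x hx
    rw [map_add, LinearMap.add_apply]
    exact W.add_mem (ha _ hx) (hb _ hx)

lemma lift_map {V' : Type} [AddCommGroup V'] [Module Ω V'] {ψ : G → Module.End Ω V'}
    (ι : V →ₗ[Ω] V') (hι : ∀ g x, ι (φ g x) = ψ g (ι x)) (a : FreeAlgebra Ω G) :
    ∀ x, ι ((FreeAlgebra.lift Ω φ a : Module.End Ω V) x) =
      (FreeAlgebra.lift Ω ψ a : Module.End Ω V') (ι x) := by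
  induction a using FreeAlgebra.induction with
  | grade0 r =>
    intro x
    rw [AlgHom.commutes, AlgHom.commutes]
    exact map_smul ι r x
  | grade1 g =>
    intro x
    rw [FreeAlgebra.lift_ι_apply, FreeAlgebra.lift_ι_apply]
    exact hι g x
  | mul a b ha hb =>
    intro x
    rw [map_mul, map_mul, Module.End.mul_apply, Module.End.mul_apply, ha, hb]
  | add a b ha hb =>
    intro x
    rw [map_add, map_add, LinearMap.add_apply, LinearMap.add_apply, map_add, ha, hb]

/-- stable subspaces are submodules -/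
def toSub (W : Submodule Ω V) (hW : ∀ g, ∀ x ∈ W, φ g x ∈ W) :
    Submodule (FreeAlgebra Ω G) (AsMod φ) where
  carrier := {x | (show V from x) ∈ W}
  add_mem' := W.add_mem
  zero_mem' := W.zero_mem
  smul_mem' := fun a x hx => lift_mem φ hW a x hx

/-- submodules are stable subspaces -/
def ofSub (M : Submodule (FreeAlgebra Ω G) (AsMod φ)) : Submodule Ω V where
  carrier := {x | (show AsMod φ from x) ∈ M}
  add_mem' := M.add_mem
  zero_mem' := M.zero_mem
  smul_mem' := by
    intro r x hx
    have h := M.smul_mem (algebraMap Ω (FreeAlgebra Ω G) r) hx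
    have h2 : (FreeAlgebra.lift Ω φ (algebraMap Ω (FreeAlgebra Ω G) r) : Module.End Ω V) x =
        r • x := by
      rw [AlgHom.commutes]
      rfl
    change (show AsMod φ from r • x) ∈ M
    rw [← h2]
    exact h

lemma ofSub_stab (M : Submodule (FreeAlgebra Ω G) (AsMod φ)) (g : G) (x : V)
    (hx : x ∈ ofSub φ M) : φ g x ∈ ofSub φ M := by
  have h := M.smul_mem (FreeAlgebra.ι Ω g) hx
  have h2 : (FreeAlgebra.lift Ω φ (FreeAlgebra.ι Ω g) : Module.End Ω V) x = φ g x := by
    rw [FreeAlgebra.lift_ι_apply]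
  change (show AsMod φ from φ g x) ∈ M
  rw [← h2]
  exact h

theorem semi_iff : Semi φ ↔ IsSemisimpleModule (FreeAlgebra Ω G) (AsMod φ) := by
  rw [isSemisimpleModule_iff]
  constructor
  · intro h
    refine ⟨fun M => ?_⟩
    obtain ⟨W', hW', hc⟩ := h (ofSub φ M) (ofSub_stab φ M)
    refine ⟨toSub φ W' hW', ?_⟩
    constructor
    · rw [Submodule.disjoint_def]
      intro x hx hx'
      exact (Submodule.disjoint_def.1 hc.disjoint) x hx hx'
    · rw [codisjoint_iff, eq_top_iff]
      intro x _
      have h1 : (show V from x) ∈ ofSub φ M ⊔ W' := by rw [codisjoint_iff.1 hc.codisjoint]; trivial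
      obtain ⟨y, hy, z, hz, hyz⟩ := Submodule.mem_sup.1 h1
      exact Submodule.mem_sup.2 ⟨y, hy, z, hz, hyz⟩
  · intro h W hW
    obtain ⟨M, hM⟩ := h.exists_isCompl (toSub φ W hW)
    refine ⟨ofSub φ M, ofSub_stab φ M, ?_⟩
    constructor
    · rw [Submodule.disjoint_def]
      intro x hx hx'
      exact (Submodule.disjoint_def.1 hM.disjoint) x hx hx'
    · rw [codisjoint_iff, eq_top_iff]
      intro x _
      have h1 : (show AsMod φ from x) ∈ toSub φ W hW ⊔ M := by
        rw [codisjoint_iff.1 hM.codisjoint]; trivial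
      obtain ⟨y, hy, z, hz, hyz⟩ := Submodule.mem_sup.1 h1
      exact Submodule.mem_sup.2 ⟨y, hy, z, hz, hyz⟩

end

section inj

attribute [local instance] asModGroup asModModule

variable {Ω : Type} [Field Ω] {G : Type} {V : Type} [AddCommGroup V] [Module Ω V]
  {φ : G → Module.End Ω V} {n : ℕ} {V' : Fin n → Type} [∀ k, AddCommGroup (V' k)]
  [∀ k, Module Ω (V' k)] {ψ : ∀ k, G → Module.End Ω (V' k)}

/-- Subrepresentations of finite direct sums of semisimple representations are semisimple. -/
theorem semi_of_inj (hψ : ∀ k, Semi (ψ k)) (ι : ∀ k, V →ₗ[Ω] V' k)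
    (hι : ∀ k g x, ι k (φ g x) = ψ k g (ι k x)) (hinj : ∀ x, (∀ k, ι k x = 0) → x = 0) :
    Semi φ := by
  rw [semi_iff]
  have h1 : ∀ k, IsSemisimpleModule (FreeAlgebra Ω G) (AsMod (ψ k)) := fun k =>
    (semi_iff _).1 (hψ k)
  have h2 : IsSemisimpleModule (FreeAlgebra Ω G) (∀ k, AsMod (ψ k)) := inferInstance
  let f : AsMod φ →ₗ[FreeAlgebra Ω G] (∀ k, AsMod (ψ k)) :=
    { toFun := fun x k => ι k x
      map_add' := fun x y => funext fun k => map_add (ι k) x y
      map_smul' := fun a x => funext fun k => lift_map φ (ι k) (hι k) a x }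
  refine IsSemisimpleModule.of_injective f ?_
  rw [← LinearMap.ker_eq_bot, Submodule.eq_bot_iff]
  intro x hx
  exact hinj x fun k => congrFun (LinearMap.mem_ker.1 hx) k

end inj

end Pool.Agent.Run7.h261.MT
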