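import Pool.Agent.Run7.h261.MT.Clo
import Pool.Agent.Y759.TS.Kol

/-!
# Continuous quasi-unipotent representations
-/

set_option autoImplicit false

namespace Pool.Agent.Run7.h261.MT

open Module Module.End NumberField IsDedekindDomain Polynomial
open Pool.Agent.W401.Cheb Pool.Agent.N184.HK
open scoped Classical

section

variable {Ω : Type} [Field Ω] [IsAlgClosed Ω] [TopologicalSpace Ω] [IsTopologicalRing Ω]
  [T2Space Ω] {Γ : Type} [Group Γ] [TopologicalSpace Γ] {V : Type} [AddCommGroup V] [Module Ω V]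
  [FiniteDimensional Ω V]

/-- Near the identity the eigenvalues of a continuous family of endomorphisms with eigenvalues of
order dividing `M` are one. -/
lemma near_one {g : Γ → Module.End Ω V} (hg : Cts g) (h1 : g 1 = 1) {M : ℕ} (hM : M ≠ 0)
    (hq : ∀ σ, ∀ t : Ω, (g σ).HasEigenvalue t → t ^ M = 1) :
    ∃ O : Set Γ, IsOpen O ∧ 1 ∈ O ∧ ∀ σ ∈ O, (g σ - 1) ^ finrank Ω V = 0 := by
  set R : Finset Ω := (nthRoots M (1 : Ω)).toFinset.erase 1 with hR
  have hc : ∀ x : Ω, Continuous fun σ => LinearMap.det (x • (1 : Module.End Ω V) - g σ) := by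
    intro x
    refine (t_cts Ω V Γ (fun σ => x • (1 : Module.End Ω V) - g σ) (fun _ => 1) ?_ ?_).2
    · intro L
      have : (fun σ => L (x • (1 : Module.End Ω V) - g σ)) =
          fun σ => L (x • (1 : Module.End Ω V)) - L (g σ) := by
        funext σ
        rw [map_sub]
      rw [this]
      exact continuous_const.sub (hg L)
    · exact fun L => continuous_const
  refine ⟨⋂ x ∈ R, (fun σ => LinearMap.det (x • (1 : Module.End Ω V) - g σ)) ⁻¹' {0}ᶜ, ?_, ?_, ?_⟩
  · exact isOpen_biInter_finset fun x _ => isOpen_compl_singleton.preimage (hc x)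
  · simp only [Set.mem_iInter, Set.mem_preimage, Set.mem_compl_iff, Set.mem_singleton_iff]
    intro x hx
    have hx1 : x ≠ 1 := Finset.ne_of_mem_erase hx
    rw [h1]
    have h2 : x • (1 : Module.End Ω V) - 1 = (x - 1) • (1 : Module.End Ω V) := by
      rw [sub_smul, one_smul]
    rw [h2, LinearMap.det_smul]
    rw [show (1 : Module.End Ω V) = LinearMap.id from rfl, LinearMap.det_id, mul_one]
    exact pow_ne_zero _ (sub_ne_zero.2 hx1)
  · intro σ hσ
    simp only [Set.mem_iInter, Set.mem_preimage, Set.mem_compl_iff, Set.mem_singleton_iff] at hσ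
    have h3 := t_qu Ω V (g σ) 1 (by
      intro t ht
      rw [pow_one]
      by_contra hne
      have h4 : t ∈ R := by
        rw [hR, Finset.mem_erase, Multiset.mem_toFinset, mem_nthRoots (Nat.pos_of_ne_zero hM)]
        exact ⟨hne, hq σ t ht⟩
      apply hσ t h4
      obtain ⟨v, hv⟩ := ht.exists_hasEigenvector
      by_contra hdet
      have h5 : IsUnit (t • (1 : Module.End Ω V) - g σ) :=
        (LinearMap.isUnit_iff_isUnit_det _).2 (isUnit_iff_ne_zero.2 hdet)
      have h6 : (t • (1 : Module.End Ω V) - g σ) v = 0 := by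
        rw [LinearMap.sub_apply, hv.apply_eq_smul, LinearMap.smul_apply]
        exact sub_self _
      have h7 := (Module.End.isUnit_iff _).1 h5
      exact hv.2 (h7.1 (h6.trans (map_zero _).symm)))
    rw [pow_one] at h3
    exact h3

end

/-- Every neighbourhood of the identity contains an open subgroup. -/
lemma open_sub {K : Type} [Field K] {O : Set (GK K)} (hO : IsOpen O) (h1 : 1 ∈ O) :
    ∃ U : Subgroup (GK K), IsOpen (U : Set (GK K)) ∧ (U : Set (GK K)) ⊆ O := by
  obtain ⟨E, hE, hEO⟩ := (krullTopology_mem_nhds_one_iff K (AlgebraicClosure K) O).1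
    (hO.mem_nhds h1)
  exact ⟨E.fixingSubgroup, E.fixingSubgroup_isOpen, hEO⟩

section

variable {Ω : Type} [Field Ω] [IsAlgClosed Ω] {V : Type} [AddCommGroup V] [Module Ω V]
  [FiniteDimensional Ω V] {G : Type} [Group G]

/-- If a group acts by unipotent maps on a stable subspace `W` and `W` contains a vector which is not
invariant, then there is such a vector `x` such that all `g x - x` are invariant. -/
lemma unip_ext (φ : G →* Module.End Ω V) (W : Submodule Ω V) (hW : ∀ g, ∀ x ∈ W, φ g x ∈ W)
    {n : ℕ} (hn : ∀ g, ∀ x ∈ W, ((φ g - 1) ^ n) x = 0) {x : V} (hx : x ∈ W)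
    (hx1 : ∃ g, φ g x ≠ x) :
    ∃ y ∈ W, (∃ g, φ g y ≠ y) ∧ ∀ g h, φ h (φ g y - y) = φ g y - y := by
  -- the fixed vectors of `W`
  let ψ : G →* Module.End Ω W :=
    { toFun := fun g => (φ g).restrict (hW g)
      map_one' := by ext x; simp
      map_mul' := by intro a b; ext x; simp }
  have hψ : ∀ g (x : W), (ψ g x : V) = φ g x := fun g x => rfl
  let F : Submodule Ω W :=
    { carrier := {x | ∀ g, ψ g x = x}
      add_mem' := fun hx hy g => by rw [map_add, hx g, hy g]
      zero_mem' := fun g => map_zero _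
      smul_mem' := fun r x hx g => by rw [map_smul, hx g] }
  have hF : ∀ g, F ≤ F.comap (ψ g) := by
    intro g x hx
    have h1 : ψ g x = x := hx g
    rw [Submodule.mem_comap, h1]
    exact hx
  let χ : G →* Module.End Ω (W ⧸ F) :=
    { toFun := fun g => F.mapQ F (ψ g) (hF g)
      map_one' := by ext x; simp
      map_mul' := by intro a b; ext x; simp }
  have hχ : ∀ g x, χ g (F.mkQ x) = F.mkQ (ψ g x) := fun g x => rfl
  have hnt : Nontrivial (W ⧸ F) := by
    rw [Submodule.Quotient.nontrivial_iff]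
    intro h
    obtain ⟨g, hg⟩ := hx1
    have h1 : (⟨x, hx⟩ : W) ∈ F := by rw [h]; trivial
    exact hg (congrArg Subtype.val (h1 g))
  have hpow : ∀ g (r : ℕ) (x : W), (((ψ g - 1) ^ r) x : V) = ((φ g - 1) ^ r) x := by
    intro g r
    induction r with
    | zero => intro x; rfl
    | succ r ih =>
      intro x
      rw [_root_.pow_succ, _root_.pow_succ, Module.End.mul_apply, Module.End.mul_apply, ih]
      rfl
  have hnil : ∀ g, IsNilpotent (χ g - 1) := by
    intro g
    refine ⟨n, ?_⟩
    have h1 : ∀ (r : ℕ) (x : W), ((χ g - 1) ^ r) (F.mkQ x) = F.mkQ (((ψ g - 1) ^ r) x) := by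
      intro r
      induction r with
      | zero => intro x; rfl
      | succ r ih =>
        intro x
        rw [_root_.pow_succ, _root_.pow_succ, Module.End.mul_apply, Module.End.mul_apply, ← ih]
        rfl
    refine LinearMap.ext fun z => ?_
    obtain ⟨z, rfl⟩ := F.mkQ_surjective z
    rw [h1, LinearMap.zero_apply]
    have h2 : ((ψ g - 1) ^ n) z = 0 := Subtype.ext (by rw [hpow]; exact hn g z z.2)
    rw [h2, map_zero]
  obtain ⟨v, hv, hv1⟩ := Pool.Agent.Y759.TS.fixed_vec (finrank Ω (W ⧸ F)) (W ⧸ F) χ hnil le_rfl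
  obtain ⟨y, rfl⟩ := F.mkQ_surjective v
  refine ⟨y, y.2, ?_, ?_⟩
  · by_contra hcon
    push Not at hcon
    apply hv
    rw [Submodule.mkQ_apply, Submodule.Quotient.mk_eq_zero]
    exact fun g => Subtype.ext (hcon g)
  · intro g h
    have h1 : ψ g y - y ∈ F := by
      have h2 := hv1 g
      rw [hχ, Submodule.mkQ_apply, Submodule.mkQ_apply, Submodule.Quotient.eq] at h2
      exact h2
    have h3 := congrArg Subtype.val (h1 h)
    rw [hψ] at h3
    exact h3

end

end Pool.Agent.Run7.h261.MT
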